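import Pool.Agent.SZT.Defs

set_option autoImplicit false

/-!
# SZT, block C: reduced ideals, counting of the multiples, product formula, the sum, the theorem.

All proofs are in the docstrings. `R = Q K f = K[x,y]/(y^2 - f)`, `f` a squarefree quintic;
`⟨U, W⟩ = U + y W`; conjugation `U + y W -> U - y W` is a ring automorphism of `R` (`star`), it maps
`MI f A B` to `MI f A (-B)`.
-/

namespace Pool.Agent.SZT

open Polynomial NumberField H58Q

/-- **Row MII** (norm ideal). PROOF. `I = (A, y - B)`, `I' = (A, y + B)`; `f - B^2 = - A A'`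
(`dvd`). `I I' = (A^2, A (y + B), A (y - B), y^2 - B^2 = -A A')`, so `I I' = A (A, y + B, y - B, A')`
and the last ideal contains `A, A', 2 B`. If a prime `p` of `K[x]` divided all three, then `p`
divides `B` (`2 <> 0`), `p^2` divides `A A' = B^2 - f` and `B^2`, so `p^2` divides `f`:
contradiction to squarefree. So `1` is a combination of `A, A', 2 B` in `K[x]`. -/
def MiiStatement : Prop :=
  ∀ (K : Type) [Field K] (f A B : K[X]), (2 : K) ≠ 0 → Squarefree f → A ∣ B ^ 2 - f →
    MI f A B * MI f A (-B) = Ideal.span {(⟨A, 0⟩ : Q K f)}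

/-- **Row MIK** (`I ∩ K[x] = (A)`). PROOF. `J = {U + y W : A divides U + W B}` is an ideal of `R` (it
is closed under multiplication by `y`: `y (U + y W) = f W + y U`, `f W + U B` is
`(f - B^2) W + B (U + B W)`), it contains both generators, so `I ⊆ J`; and `J ⊆ I`:
`U + y W = (U + W B) + W (y - B)`. -/
def MikStatement : Prop :=
  ∀ (K : Type) [Field K] (f A B U W : K[X]), A ∣ B ^ 2 - f →
    ((⟨U, W⟩ : Q K f) ∈ MI f A B ↔ A ∣ U + W * B)

/-- **Row NRP** (norm of a generator of `I I'`; uses MII). PROOF. Conjugate and multiply: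
`(h)(h*) = I(A,B) I(A,-B) I(A',-B') I(A',B') = (A)(A')`. So `N(h) = h h* = U^2 - f W^2` and
`A A'` generate the same ideal of `R`: `N(h) = ε A A'`, `A A' = ε' N(h)` with `ε, ε'` in `R`
(`A A' <> 0`). Comparing the coefficients of `y`: `ε = c`, `ε' = c'` in `K[x]` (`R` is free over
`K[x]` with basis `1, y`; `A A' <> 0`, `N(h) <> 0`), `c c' = 1`, so `c` is a nonzero constant. -/
def NrpStatement : Prop :=
  ∀ (K : Type) [Field K] (f A B A' B' U W : K[X]), (2 : K) ≠ 0 → Squarefree f →
    f.natDegree = 5 → A.Monic → A'.Monic → A ∣ B ^ 2 - f → A' ∣ B' ^ 2 - f →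
    MI f A B * MI f A' (-B') = Ideal.span {(⟨U, W⟩ : Q K f)} →
    ∃ c : K, c ≠ 0 ∧ U ^ 2 - f * W ^ 2 = C c * (A * A')

/-- **Row UNQ** (uniqueness of reduced ideals; uses MII, MIK, NRP). PROOF. Write `I, I'` for the two
ideals, `*` for conjugation. `(a) I = (b) I'`. Multiply by `I'*`: `(a) I I'* = (b A')` (MII). So
`b A' = a h` with `h` in `R` (`b A'` is in `(a)`), and `(a)(h) = (a) I I'*`, so `(h) = I I'*` (`R` is a
domain, `Fact (Odd f.natDegree)`). NRP: `h = U + y W`, `U^2 - f W^2 = c A A'` has degree `<= 4`; if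
`W <> 0` the degree is `>= 5` (`2 deg U` is even, `5 + 2 deg W` is odd). So `W = 0`,
`U^2 = c A A'`, and `U ∈ I`, `U ∈ I'*` (products are contained in the factors), so `A` and `A'`
divide `U` (MIK); `deg A, deg A' <= deg U = (deg A + deg A')/2`, so all three are equal and
`A = A'` is `U` divided by its leading coefficient. `I I'* = (A) = I I*`; multiply by `I*`:
`(A) I'* = (A) I*`, `I'* = I*`, `I' = I`. So `y - B` and `y - B'` are in `I`, `A` divides
`B - B'` (MIK), `B = B'` by the degrees. -/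
def UnqStatement : Prop :=
  ∀ (K : Type) [Field K] (f A B A' B' : K[X]), (2 : K) ≠ 0 → Squarefree f → f.natDegree = 5 →
    Mum f A B → Mum f A' B' → A.natDegree ≤ 2 → A'.natDegree ≤ 2 →
    SameCl (MI f A B) (MI f A' B') → A = A' ∧ B = B'

/-- **Row REX** (every class contains a reduced ideal). PROOF. `H58Q.exists_reduced` (g = 2) gives a
nonzero ideal `J` with `ClassGroup.mk0 J = c`, `colen J <= 2`; `H31M.exists_herm` gives `w, c0, b`:
`J ∩ K[x] = (w)`, all `y`-coordinates of elements of `J` are divisible by `c0`,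
`b + y c0 ∈ J`, `deg w <= 2`. `w <> 0` (`J <> 0`: the norm of an element), `c0` divides `w` (`y w ∈ J`)
and `b` (`y (b + y c0) = c0 f + y b`). Put `A = w/c0` (made monic), `B = -(b/c0) mod A`.
`J = (c0) (w/c0, y + b/c0)`: `u = p + y c0 t ∈ J` is `t (b + y c0) + (p - t b)` and
`w | p - t b`. The norm `(b^2 - f c0^2)` of `b + y c0` is in `J ∩ K[x]`, more precisely
`(b/c0 - y)(b + y c0) = (b^2 - f c0^2)/c0` is in `J`, so `w | c0 ((b/c0)^2 - f)`,
`A | B^2 - f`. So `(c0) MI f A B = J`, hence `mk0 (MI f A B) = mk0 J` (`ClassGroup.mk0_eq_mk0_iff`). -/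
def RexStatement : Prop :=
  ∀ (K : Type) [Field K] (f : K[X]) [Fact (Odd f.natDegree)] [IsDedekindDomain (Q K f)],
    (2 : K) ≠ 0 → Squarefree f → f.natDegree = 5 → ∀ c : ClassGroup (Q K f),
    ∃ (A B : K[X]) (h : MI f A B ∈ nonZeroDivisors (Ideal (Q K f))), Mum f A B ∧
      A.natDegree ≤ 2 ∧ ClassGroup.mk0 ⟨MI f A B, h⟩ = c

/-- **Row PRO** (product of two points; uses MIK). PROOF. (`A = 1`: the ideal is the unit ideal,
`B = 0`.) If one of the ideals is the unit ideal, the other one. `A = x - a`, `A' = x - a'`,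
`B = b`, `B' = b'` constants, `b^2 = f(a)`, `b'^2 = f(a')`. (i) `a <> a'`: `B''` = the polynomial of
degree `<= 1` with values `b, b'`; (ii) `a = a'`, `b = b' <> 0`: `B'' = b + f'(a)/(2b) (x - a)`, then
`(x-a)^2` divides `B''^2 - f`. The case `a = a'`, `b' = -b` is excluded by the hypothesis, and
`b'^2 = b^2`. In both cases `A''  = A A'` divides `B''^2 - f`, `A | B'' - B`, `A' | B'' - B'`, and the
product ideal: `⊆`: MIK for the four products of generators. `⊇`, (i): the product of comaximal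
ideals (`a - a' ∈ I + I'`) is the intersection, and `A''`, `y - B''` are in both; (ii)
`(y - b)^2 = f - 2 b y + b^2 = -2 b (y - B'') + (f - b^2 - f'(a)(x-a))`, the last bracket is
divisible by `(x - a)^2`; so `y - B'' ∈ I^2`. -/
def ProStatement : Prop :=
  ∀ (K : Type) [Field K] (f A B A' B' : K[X]), (2 : K) ≠ 0 → Mum f A B → Mum f A' B' →
    A.natDegree ≤ 1 → A'.natDegree ≤ 1 → ¬ (A = A' ∧ B = -B') →
    ∃ B'' : K[X], Mum f (A * A') B'' ∧ A ∣ B'' - B ∧ A' ∣ B'' - B' ∧
      MI f A B * MI f A' B' = MI f (A * A') B''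

/-- **Row PAI** (pairs of points are determined by the class; uses UNQ, PRO, MII). PROOF. If
`(A, B) = (A', -B')`, the product is `(A)` by MII (`MI f A (-B')`...), principal, excluded by the
hypothesis; the same for the second pair (its product would be principal, and `SameCl` transports
this: `(a) I = (b)(c)`, so `b c = a h` and `(h) = I`). So PRO gives `B1''`, `B2''` with
`SameCl (MI f (A A') B1'') (MI f (C C') B2'')`; UNQ: `A A' = C C'`, `B1'' = B2''`. If
`A = A' = 1`, then `C = C' = 1` and all `B = 0`. If one of them is 1, compare degrees. If all four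
are linear: unique roots: `{a, a'} = {c, c'}`; `B` is `B1'' mod A` (`deg B < deg A`), which gives
the two cases. -/
def PaiStatement : Prop :=
  ∀ (K : Type) [Field K] (f A B A' B' D E D' E' : K[X]), (2 : K) ≠ 0 → Squarefree f →
    f.natDegree = 5 → Mum f A B → Mum f A' B' → Mum f D E → Mum f D' E' →
    A.natDegree ≤ 1 → A'.natDegree ≤ 1 → D.natDegree ≤ 1 → D'.natDegree ≤ 1 →
    ¬ (MI f A B * MI f A' B').IsPrincipal →
    SameCl (MI f A B * MI f A' B') (MI f D E * MI f D' E') →
    (A = D ∧ B = E ∧ A' = D' ∧ B' = E') ∨ (A = D' ∧ B = E' ∧ A' = D ∧ B' = E)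

/-- **Row SID** (Sidon sets; pure combinatorics). PROOF. For every `k ∈ S` at most one `l ∈ S` has
`N ∣ k + l`. The other pairs `(k, l) ∈ S × S`, at least `m^2 - m` of them, `m = #S`, map to
`(k + l) % N ∈ {1, .., N-1}`, every value is taken at most twice by the hypothesis. So
`m^2 - m <= 2 (N - 1)`, `m <= Nat.sqrt (2 N) + 1`: if `m >= Nat.sqrt (2N) + 2`, then
`m (m - 1) >= (s + 2)(s + 1) > (s+1)^2 > 2 N`, `s = Nat.sqrt (2N)`. -/
def SidStatement : Prop :=
  ∀ (N : ℕ) (S : Finset ℕ), 0 < N → (∀ k ∈ S, k < N) →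
    (∀ k ∈ S, ∀ l ∈ S, ∀ k' ∈ S, ∀ l' ∈ S, ¬ N ∣ k + l → (k + l) % N = (k' + l') % N →
      (k = k' ∧ l = l') ∨ (k = l' ∧ l = k')) →
    S.card ≤ Nat.sqrt (2 * N) + 1

/-- **Row BDK** (classification of the reduced ideals which are not good; uses MIK). PROOF. Degree 2 and
not coprime to `f`. Let `p` be a common irreducible factor of `A` and `f`. `p | A | B^2 - f`, so
`p | B`. If `deg p = 2`, then `A = p` (monic, up to the constant), `A | B`, `B = 0`. If `deg p = 1`,
`p = x - t`: `A = (x - t)(x - a)`; `(x - t)^2` does not divide `A`: otherwise it divides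
`B^2 - f` and `B^2`, so `f`. So `a <> t`; `B(t) = 0`; `b = B(a)`; `Mum f (X - C a) (C b)`; and
`MI f (X - C t) 0 * MI f (X - C a) (C b) = MI f A B` (comaximal ideals, product = intersection, as in
PRO (i)). -/
def BdkStatement : Prop :=
  ∀ (K : Type) [Field K] (f A B : K[X]), (2 : K) ≠ 0 → Squarefree f → Mum f A B →
    A.natDegree ≤ 2 → ¬ Good f A B →
    A.natDegree ≤ 1 ∨ (A ∣ f ∧ B = 0) ∨
      ∃ t a b : K, f.IsRoot t ∧ Mum f (X - C a) (C b) ∧
        MI f (X - C t) 0 * MI f (X - C a) (C b) = MI f A B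

/-- **Row CNT** (most multiples are good; uses MII, PAI, SID, BDK). Given: an ideal `I` of exact order
`N`, and for every `k` reduced data `(A k, B k)` in the class of `I^k`. PROOF. Split the set of the
bad `k < N` by BDK. (0) `deg A k <= 1`: SID with PAI: `MI k * MI l` is in the class of `I^(k+l)`,
principal iff `N | k + l`; equal residues of `k + l`, `k' + l'` give `SameCl`
(`I^N` principal); equal data `(A k, B k) = (A k', B k')` give `k = k'` (both `< N`, order
exactly `N`: `I^(k'-k)` is principal). (t) for each root `t` of `f` in `K` (at most 5), with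
`P_k = MI f (X - C a_k) (C b_k)`, `I_t = MI f (X - C t) 0`, `I_t^2 = (x - t)` by MII (`-0 = 0`):
`P_k P_l` is in the class of `I_t^2 P_k P_l = MI k * MI l`, so of `I^(k+l)`: again SID with PAI.
(f) `A k | f`, `B k = 0`: `MI k^2 = (A)` by MII, so `N | 2 k`: at most 2 values of `k < N`. Sum:
`6 (Nat.sqrt (2 N) + 1) + 2`. (Calculus of `SameCl` in a domain: transitive, multiplicative, `I` principal
and not 0 iff `SameCl I (1)`; all ideals here are not 0.) -/
def CntStatement : Prop :=
  ∀ (K : Type) [Field K] (f : K[X]) (I : Ideal (Q K f)) (N : ℕ) (A B : ℕ → K[X]), (2 : K) ≠ 0 →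
    Squarefree f → f.natDegree = 5 → I ≠ ⊥ → 0 < N → (I ^ N).IsPrincipal →
    (∀ j, 0 < j → j < N → ¬ (I ^ j).IsPrincipal) →
    (∀ k, Mum f (A k) (B k) ∧ (A k).natDegree ≤ 2 ∧ SameCl (MI f (A k) (B k)) (I ^ k)) →
    ∀ S : Finset ℕ, (∀ k ∈ S, k < N ∧ ¬ Good f (A k) (B k)) →
      S.card ≤ 6 * (Nat.sqrt (2 * N) + 1) + 2

/-- **Row PEL** (Pell equation of a good ideal; uses NRP or MII). PROOF. Let `u = U0 + y W0` be a
generator of `I^M`. `(u)(u*) = (I I*)^M = (A)^M`, so `N(u) = U0^2 - f W0^2 = c A^M`, `c` a nonzero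
constant (as in NRP). The degree of `A^M` is `2M`, even, so `deg (f W0^2) < deg U0^2 = 2M` and
`c = λ^2`, `λ` the leading coefficient of `U0`. `U = U0/λ`, `W = W0/λ`. Coprime to `A`: let `p` be
an irreducible factor of `A` and of `U`. `p^2 ∤`.. : `f W^2 = U^2 - A^M` is divisible by `p`, `p ∤ f`, so
`p | W`, `u ∈ (p) R`. But `2 B` is a unit mod `p` (`B^2 = f` mod `A`), so `I` and `(p, y + B)` are
comaximal (`A, y - B, y + B, p` contains `2 B` and `p`); so `I^M` and `(p, y + B)` are comaximal, but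
`u ∈ (p) ⊆ (p, y + B)` gives `I^M ⊆ (p, y + B)`, so `(p, y+B) = (1)`, which contradicts MIK
(`p ∤ 1`). -/
def PelStatement : Prop :=
  ∀ (K : Type) [Field K] (f A B : K[X]) (M : ℕ), (2 : K) ≠ 0 → Squarefree f → f.natDegree = 5 →
    Good f A B → 0 < M → ((MI f A B) ^ M).IsPrincipal →
    ∃ U W : K[X], (MI f A B) ^ M = Ideal.span {(⟨U, W⟩ : Q K f)} ∧ U ^ 2 - f * W ^ 2 = A ^ M ∧
      IsCoprime A U

/-- **Row PFS** (product formula for `Lv`). PROOF. `a = Res(A, 4 f)` and `b = Res(A, 2 U)` are not 0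
(`Polynomial.resultant_ne_zero` or `resultant_eq_zero_iff`; `4`, `2` units). Both have
`v a = v b = 1` for all but finitely many finite places (`FinitePlace.hasFiniteMulSupport`); for a
finite set `T` which contains the exceptions `prod_(v inf) v a^mult * prod_(v in T) v a = 1`
(`NumberField.prod_abs_eq_one`). Take logarithms, `1/2` times the first minus `1/M` times the
second. -/
def PfsStatement : Prop :=
  ∀ (K : Type) [Field K] [NumberField K] (f A U : K[X]) (M : ℕ), IsCoprime A f → IsCoprime A U →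
    ∃ T₀ : Finset (FinitePlace K), ∀ T : Finset (FinitePlace K), T₀ ⊆ T →
      ∑ v : InfinitePlace K, (v.mult : ℝ) * Lv v f A U M + ∑ v ∈ T, Lv v f A U M = 0

/-- The largest distance of two complex roots of `F`. -/
noncomputable def spr (F : ℂ[X]) : ℝ :=
  sSup {r : ℝ | ∃ a b : ℂ, F.IsRoot a ∧ F.IsRoot b ∧ r = ‖a - b‖}

/-- **Row DSR** (discriminant of a product of linear factors). PROOF. `resultant_deriv` (monic, so the
leading coefficient is 1): `discr f = ± Res(f, f')`, `Res(f, f') = prod_i f'(θ_i)`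
(`resultant_eq_prod_eval`) `= prod_i prod_(j <> i) (θ_i - θ_j)`; collect the pairs. -/
def DsrStatement : Prop :=
  ∀ (L : Type) [Field L] (θ : Fin 5 → L),
    discr (∏ i, (X - C (θ i)) : L[X]) = dsc θ ∨ discr (∏ i, (X - C (θ i)) : L[X]) = -dsc θ

/-- **Row LIF** (A-OUT at the infinite places; uses AOUT, DSR). PROOF. `ι = v.embedding : K -> ℂ`,
`v x = ‖ι x‖`. `f.map ι` is monic of degree 5, squarefree (separable), so
`f.map ι = prod (X - C (θ i))`, `θ` injective. Second part of AOUT (complex numbers) for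
the mapped polynomials (`U^2 - f W^2 = A^M` is preserved, coprime too). `Lv` is
preserved (`resultant_map_map`; natDegrees are preserved by an injective map), `v (discr f) =
‖dsc θ‖`, `rho = spr (f.map ι)` (the supremum over the pairs of roots). -/
def LifStatement : Prop :=
  ∃ ci : ℝ, 0 ≤ ci ∧ ∀ (K : Type) [Field K] [NumberField K] (v : InfinitePlace K)
    (f A B U W : K[X]) (M : ℕ), f.Monic → f.natDegree = 5 → Squarefree f → Good f A B →
    IsCoprime A U → 0 < M → Even M → U ^ 2 - f * W ^ 2 = A ^ M →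
    (1 / 2) * Real.log (v (discr f)) - 7 * Real.log (spr (f.map v.embedding)) - ci
      ≤ Lv v f A U M

/-- **Row LFN** (A-OUT at the finite places, `f` integral; uses AOUT, DSR, `BHT.EVStmt` (proved:
`ev`), `UBT.Ext1Stmt` (proved: `ext1`)). PROOF. `E ⊇ K` a number field over which `f A U` splits
(EXT1; factors of a split polynomial split; `U <> 0`), `v'` on `E` nonarchimedean extending `v` (EV). AOUT for `E, v'`: `Lv`, `discr` are preserved. All
roots `θ_i` of `f` in `E` have `v' (θ_i) <= 1` (`f` monic with coefficients of absolute value `<= 1`),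
so `rho <= 1` and `- 7 log rho >= 0` (`rho > 0` because the roots are distinct). -/
def LfnStatement : Prop :=
  ∃ c2 : ℝ, 0 ≤ c2 ∧ ∀ (K : Type) [Field K] [NumberField K] (v : FinitePlace K)
    (f A B U W : K[X]) (M : ℕ), f.Monic → f.natDegree = 5 → Squarefree f →
    (∀ n, v (f.coeff n) ≤ 1) → Good f A B → IsCoprime A U → 0 < M → Even M →
    U ^ 2 - f * W ^ 2 = A ^ M →
    (1 / 2) * Real.log (v (discr f)) + c2 * Real.log (v 2) ≤ Lv v f A U M

/-- **Row AVG** (mean of `{x}(1-{x})` over multiples). PROOF. `t = m/N`. Let `g = gcd(m, N)`, `q = N/g`.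
`k -> k m mod N` takes every multiple of `g` in `[0, N)` exactly `g` times for `k < N`, so the sum is
`g sum_(j<q) (j/q)(1 - j/q) = g (q^2 - 1)/(6 q) <= g q/6 = N/6`. (Alternative: Fourier free: the sum
`S` of `fract (k t)` is `g (q-1)/2`, the sum of squares is `g (q-1)(2q-1)/(6 q)`.) -/
def AvgStatement : Prop :=
  ∀ (N : ℕ) (t : ℝ), 0 < N → (∃ m : ℤ, (N : ℝ) * t = m) →
    ∑ k ∈ Finset.range N, Int.fract (k * t) * (1 - Int.fract (k * t)) ≤ N / 6

/-- the archimedean size of the roots: `log H`, `H` = product over the embeddings `K -> ℂ` of the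
largest root distance. -/
noncomputable def lH {K : Type} [Field K] [NumberField K] (f : K[X]) : ℝ :=
  ∑ v : InfinitePlace K, (v.mult : ℝ) * Real.log (spr (f.map v.embedding))

/-- **Row DSH** (discriminant and `H`; uses DSR). PROOF. `D = discr f` is not 0 (separable) and
integral (a polynomial in the integral coefficients; or product of differences of integral roots in a
splitting field; or `v (D) <= 1` for all finite `v`, because the Sylvester matrix has integral
entries). (i) product formula: `sum_(v inf) mult log v D + sum_(v in T) log v D = 0` for every finite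
`T` containing all finite `v` with `v D <> 1`; the finite terms are `<= 0`. `v D = prod of the
20 ordered root differences <= spr^20`. So `- sum_(v in S) log v D <= - sum_(all finite) log v D
= sum_(v inf) mult log v D <= 20 lH f`. (ii) with `S` empty: `0 <= lH f`. (iii)
`|N(D)| = prod_(v inf) v D^mult <= exp (20 lH f)`. -/
def DshStatement : Prop :=
  ∀ (K : Type) [Field K] [NumberField K] (f : K[X]), f.Monic → f.natDegree = 5 → Squarefree f →
    (∀ n, IsIntegral ℤ (f.coeff n)) →
    discr f ≠ 0 ∧ IsIntegral ℤ (discr f) ∧ 0 ≤ lH f ∧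
    |Algebra.norm ℚ (discr f)| ≤ Real.exp (20 * lH f) ∧
    (∀ S : Finset (FinitePlace K), - ∑ v ∈ S, Real.log (v (discr f)) ≤ 20 * lH f) ∧
    ∀ T : Finset (FinitePlace K), (∀ v, v (discr f) ≠ 1 → v ∈ T) →
      ∑ v : InfinitePlace K, (v.mult : ℝ) * Real.log (v (discr f)) +
        ∑ v ∈ T, Real.log (v (discr f)) = 0

/-- **Row QVN** (valuations). PROOF. `x = a/b` with integers `a, b` of `K`,
`FinitePlace.apply_mul_absNorm_pow_eq_one` for both; `v x < 1` gives that the difference of the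
exponents is positive. `absNorm >= 2`. -/
def QvnStatement : Prop :=
  ∀ (K : Type) [Field K] [NumberField K] (v : FinitePlace K) (x : K), x ≠ 0 → v x < 1 →
    ∃ n : ℕ, 0 < n ∧ v x * (Ideal.absNorm v.maximalIdeal.asIdeal : ℝ) ^ n = 1

/-- **Row MSM** (the main inequality; uses CNT, PEL, PFS, LIF, LFN, BOUT, AVG, DSH, QVN). `N` = exact
order of the ideal class of `I₁^m₀`, `A k, B k` reduced representatives of the classes of
`I₁^(m₀ k)`; all `n <= n₀` divide `m₀`; `S` = finite set of odd simple nodes. PROOF. Let `G` be the set of the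
good `k < N`. For `k ∈ G` let `M = 2 N` (`(MI k)^(2N)` is principal), `U, W` from PEL. PFS: `0 = sum Lv`
over the infinite places and a finite set `T` of finite places, which we enlarge: `T ⊇ S`, `T`
contains all `v` with `v (discr f) <> 1` or `v 2 <> 1`. Lower bounds: `v` infinite: LIF; `v ∈ T \ S`:
LFN; `v ∈ S`: BOUT for `I₁` and the exponent `m₀ k` (`n` from QVN): `Lv >= log v(D) F(m₀ k s_v)`,
`F(x) = {x}(1-{x})`, and `F(m₀ k s_v) = 0` if `n_v <= n₀`, as `n_v s_v ∈ Z` and `n_v | m₀`. So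
`0 >= sum_inf mult ((1/2) log v D - 7 log spr - ci) + sum_(T \ S) (1/2) log v D + c2 sum_T log v 2
 - sum_(v ∈ S, n_v > n₀) l_v F(m₀ k s_v)`, `l_v = - log v D`. By DSH (last part)
`(1/2)(sum_inf + sum_(T\S)) log v D = (1/2) sum_S l_v`; `c2 sum_T log v 2 >= - c2 [K:Q] log 2` (product
formula for 2: `sum_T log v 2 >= - sum_inf mult log 2`), `sum_inf mult = [K:Q]`. With
`T_S = sum_S l_v`, `C = ci + c2 log 2`:
`(1/2) T_S - 7 lH f - C [K:Q] <= sum_(v∈S, n_v>n₀) l_v F(m₀ k s_v)`. Sum over `k ∈ G` (`F >= 0`, so the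
right side may be summed over all `k < N`; AVG for `t = m₀ s_v`: `N t ∈ Z` because
`I₁^(m₀ N)` is principal: apply BOUT with `N' = m₀ N`):
`#G ((1/2) T_S - 7 lH f - C [K:Q]) <= (N/6) (T_S - T_1)`, `T_1 = sum over v ∈ S, n_v <= n₀, of l_v`.
CNT (for `I = I₁^m₀`): `#G >= N - 6 (sqrt(2N) + 1) - 2`. -/
def MsmStatement : Prop :=
  ∃ Cc : ℝ, 0 ≤ Cc ∧ ∀ (K : Type) [Field K] [NumberField K] (f A₁ B₁ : K[X]) (m₀ n₀ N : ℕ)
    (A B : ℕ → K[X]) (S : Finset (FinitePlace K)), f.Monic → f.natDegree = 5 → Squarefree f →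
    (∀ n, IsIntegral ℤ (f.coeff n)) → Mum f A₁ B₁ → 0 < N → 0 < m₀ →
    (∀ n, 0 < n → n ≤ n₀ → n ∣ m₀) →
    ((MI f A₁ B₁) ^ (m₀ * N)).IsPrincipal →
    (∀ j, 0 < j → j < N → ¬ ((MI f A₁ B₁) ^ (m₀ * j)).IsPrincipal) →
    (∀ k, Mum f (A k) (B k) ∧ (A k).natDegree ≤ 2 ∧
      SameCl (MI f (A k) (B k)) ((MI f A₁ B₁) ^ (m₀ * k))) →
    (∀ v ∈ S, NodeShape v.val f ∧ v (discr f) < 1) →
    ∃ G : ℕ, N ≤ G + (6 * (Nat.sqrt (2 * N) + 1) + 2) ∧ G ≤ N ∧
      (G : ℝ) * ((1 / 2) * (- ∑ v ∈ S, Real.log (v (discr f))) - 7 * lH f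
        - Cc * Module.finrank ℚ K) ≤
      (N / 6 : ℝ) * (- ∑ v ∈ S with
        v (discr f) * (Ideal.absNorm v.maximalIdeal.asIdeal : ℝ) ^ n₀ < 1, Real.log (v (discr f)))

/-- **Row GPR** (good primes; uses `UBT.LocStmt` (proved: `loc` ...), `UBT.DedStmt`). PROOF. Let `p` be a
prime, `p > 2`, not dividing the norm of `D = discr f`. Let `w` be a prime of `O_K` over `p`: `w` does
not contain `D`, so `f mod w` is separable (its discriminant is the image of `D`; the coefficients of
`f` are integral, `f = F.map` with `F` over the localization `V` of `O_K` at `w`, a discrete valuation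
ring with finite residue field of at most `p^d` elements). LOC (g = 2):
`orderOf c = m p^a`, `1 <= m <= 2^((p^d)^8)` (monotone in the number of elements). Take two different
such primes `p, q <= P`: `m p^a = m' q^b`, so `p^a` divides `m'` and the order is
`m p^a <= m m'`. Primes: `P = P(Δ)` such that there are two primes in
`(max(2, Δ), P]` (Bertrand or `Nat.exists_infinite_primes` twice); they do not divide the nonzero
integer `N(D)` of absolute value `<= Δ`. -/
def GprStatement : Prop :=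
  ∀ (d : ℕ) (Δ : ℝ), ∃ B : ℕ, ∀ (K : Type) [Field K] [NumberField K], Module.finrank ℚ K ≤ d →
    ∀ (Y : UBT.OddCurve K), Y.f.Monic → Y.f.natDegree = 5 →
    (∀ n, IsIntegral ℤ (Y.f.coeff n)) → |Algebra.norm ℚ (discr Y.f)| ≤ Δ →
    ∀ c : Y.Jac, IsOfFinOrder c → orderOf c ≤ B

/-- **The theorem (SZT).** Let `Y : y² = f(x)` have genus 2, `f` a monic integral quintic over a number
field `K` of degree at most `d`, `S` a finite set of odd simple nodes. If
`sum_S (log N v + 2 log |disc f|_v^(-1)) >= (42 + ε) log H`, then all torsion points of `J(K)` have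
order at most `B(d, ε)`. -/
def SztStatement : Prop :=
  ∀ (d : ℕ) (ε : ℝ), 0 < ε → ∃ B : ℕ, ∀ (K : Type) [Field K] [NumberField K],
    Module.finrank ℚ K ≤ d → ∀ (Y : UBT.OddCurve K), Y.f.Monic → Y.f.natDegree = 5 →
    (∀ n, IsIntegral ℤ (Y.f.coeff n)) →
    ∀ S : Finset (FinitePlace K), (∀ v ∈ S, NodeShape v.val Y.f ∧ v (discr Y.f) < 1) →
    (42 + ε) * lH Y.f ≤ ∑ v ∈ S, (Real.log (Ideal.absNorm v.maximalIdeal.asIdeal) +
      2 * (- Real.log (v (discr Y.f)))) →
    ∀ c : Y.Jac, IsOfFinOrder c → orderOf c ≤ B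

/-- **Row FIN** (assembly; uses MSM, REX, DSH, QVN, GPR, `UBT.DedStmt`). PROOF. `d, ε` given; WLOG
`ε <= 1`. `n₀ = ⌈80/ε⌉`, `m₀ = n₀!`, `η = ε/80`; `N₁` such that for all `N >= N₁`
`6 (sqrt(2N)+1) + 2 <= (η/(1+η)) N`, so that `N <= (1 + η) G` in MSM. `h₁ = 12 Cc d/ε`; `B₁` from GPR
for `Δ = exp(20 h₁)`. `B = max (m₀ N₁) B₁`. Let `c` have order `n`; REX gives `A₁, B₁` for `c`.
`c^m₀` has order `N = n/gcd(n, m₀)`, `n <= m₀ N`. If `N < N₁`: done. Else MSM (the hypotheses on the
powers of `MI f A₁ B₁` are `orderOf`: `mk0 I = 1` iff `I` principal, `ClassGroup.mk0_eq_one_iff`;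
`A k, B k` from REX for `c^(m₀ k)`, `SameCl` from `ClassGroup.mk0_eq_mk0_iff`). Write `h = lH f`,
`T = - sum_S log v D`, `T' =` the part of `T` with `n_v > n₀`
(`v D * Nv^n₀ < 1` iff `n_v > n₀`), `R = sum_S log Nv`. MSM:
`(1/2) T - 7 h - Cc d <= (1+η)/6 T'` (if the left side is positive; otherwise clear, `T' >= 0`).
`R <= (T - T') + T/n₀` (`log Nv <= l_v` for all `v ∈ S`, and `log Nv = l_v/n_v <= l_v/n₀` if
`n_v > n₀`). So `R + 2 T <= (T - T') + T/n₀ + 2T = 3 T - T' + T/n₀` and
`3 T - T' <= 42 h + 6 Cc d + η T' `, `T' <= T <= 20 h` (DSH):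
`(42 + ε) h <= R + 2T <= 42 h + 6 Cc d + 20 (η + 1/n₀) h <= 42 h + 6 Cc d + (ε/2) h`. So
`h <= 12 Cc d/ε = h₁`, `|N(D)| <= exp (20 h₁)`, GPR: `n <= B₁`. -/
def FinStatement : Prop := SztStatement

end Pool.Agent.SZT
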