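import Pool.Agent.SZT.Defs
import Pool.Agent.MNT.StmtsA

set_option autoImplicit false

/-!
# SZT, block A: the one-place bound (note 3625 (A'))

Everywhere `E` is a field with an absolute value `v` satisfying `MNT.QU v c₀`:
`v (a + b) ≤ exp c₀ * max (v a) (v b)` (`c₀ = 0` nonarchimedean, `c₀ = log 2` for `ℂ`), `θ : Fin 5 → E`
injective, `f = ∏ (X - θ i)`, `a 0, a 1` the roots of `A`, `U ^ 2 - f W ^ 2 = (A ^ N) ^ 2` (`M = 2 N`).

HYPOTHESES of a row = the statements named in (uses ...), in this order: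
`theorem xxx (h : YyyStmt) ... : XxxStmt`. Rows: ODN ODA CVX OKN OKA FVL UVL PTA PTB SMS CMB TRF.
-/

namespace Pool.Agent.SZT

open Polynomial
open Pool.Agent.MNT (QU vC)
open scoped Classical

/-- The Pell equation `U ^ 2 - F W ^ 2 = (((X - a 0) (X - a 1)) ^ N) ^ 2`. -/
structure Sol2 {E : Type} [Field E] (F : E[X]) (a : Fin 2 → E) (N : ℕ) (U W : E[X]) : Prop where
  pos : 1 ≤ N
  eq : U ^ 2 - F * W ^ 2 = (((X - C (a 0)) * (X - C (a 1))) ^ N) ^ 2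
  deg : U.natDegree = 2 * N
  lead : U.leadingCoeff ^ 2 = 1
  ev : ∀ i, U.eval (a i) ≠ 0

/-- `J(R) = ∑_ζ log max(R, |ζ - p|)` -/
noncomputable def JJ {E : Type} [Field E] (v : AbsoluteValue E ℝ) (Z : Multiset E) (p : E)
    (R : ℝ) : ℝ :=
  (Z.map fun ζ => Real.log (max R (v (ζ - p)))).sum

/-- The inequality on the circle with centre `p` and radius `R`:
`J(R) ≤ (#Z / 2) (log max(R, |a 0 - p|) + log max(R, |a 1 - p|) + e)`. -/
def Hm {E : Type} [Field E] (v : AbsoluteValue E ℝ) (Z : Multiset E) (a : Fin 2 → E) (p : E)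
    (R e : ℝ) : Prop :=
  JJ v Z p R ≤ (Multiset.card Z : ℝ) / 2 *
    (Real.log (max R (v (a 0 - p))) + Real.log (max R (v (a 1 - p))) + e)

/-- The inequality `Hm` holds at all centres `θ i` and all radii `R > 0` which are at most the
distance to every other root, or at least `exp c₀` times the distance to every root. -/
def Good2 {E : Type} [Field E] (v : AbsoluteValue E ℝ) (c₀ e : ℝ) (θ : Fin 5 → E) (Z : Multiset E)
    (a : Fin 2 → E) : Prop :=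
  ∀ (i : Fin 5) (R : ℝ), 0 < R →
    ((∀ k, k ≠ i → R ≤ v (θ k - θ i)) ∨ (∀ k, Real.exp c₀ * v (θ k - θ i) ≤ R)) →
    Hm v Z a (θ i) R e

/-- ODN (STRONG; copy of `Helper13_MNT/ODN.lean`, `odn : MNT.OdnStmt`, 244 lines). Nonarchimedean
case, every radius `δ` with an odd number of roots of `F` in the closed disc.
PROOF. The same with `G = ((X - C (a 0)) * (X - C (a 1))) ^ N`: for split `p` the Gauss norm of
`taylor ζ p` with radius `δ` is `|lead p| ∏ max(δ, |α - ζ|)` over the roots; if the one of `U` were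
larger than the one of `G` then `U² - G²` would have an even dominant index, but `F W²` has dominant
index odd + even. So `∏ max(δ, |ζ_k - ζ|) ≤ (max(δ, |a 0 - ζ|) max(δ, |a 1 - ζ|)) ^ N`
(`|lead U| = 1` because `lead U ^ 2 = 1`), `U.roots` has `2 N` elements; take logarithms. -/
def OdnStmt : Prop := ∀ (E : Type) [Field E] (v : AbsoluteValue E ℝ), IsNonarchimedean v →
    ∀ (F : E[X]) (a : Fin 2 → E) (N : ℕ) (U W : E[X]), F ≠ 0 → F.Splits → U.Splits →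
    Sol2 F a N U W → ∀ (ζ : E) (δ : ℝ), 0 < δ → Odd (BHT.cnt v F ζ δ) → Hm v U.roots a ζ δ 0

/-- ODA (copy of `Helper91_MNT/ODA.lean`, `oda : MNT.OdaStmt`, 193 lines; uses `MNT.A1gStmt` and
`BHT.A2Stmt` as hypotheses, in this order; both are proved). The inequality at an odd annulus of
ratio 2, archimedean case.
PROOF. `t_k = ‖ζ_k - ζ‖` for the `2 N` roots `ζ_k` of `U`, `B_i = max r ‖a i - ζ‖`. By A1G with
`G = ((X - C (a 0)) * (X - C (a 1))) ^ N`: for all `ρ ∈ (r/2, r)` there is `x_ρ` on the circle with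
`|U(x_ρ)| ≤ |x_ρ - a 0|^N |x_ρ - a 1|^N ≤ (2 B_0)^N (2 B_1)^N`. Far roots (`t_k ≥ 2 r`):
`|x_ρ - ζ_k| ≥ t_k/2`. A2 on `(r/2, r)` for `T = K₀ ∏_{t_k < 2r} (X - ζ_k)`,
`K₀ = ∏_{far} (t_k/2) / ((2 B_0)^N (2 B_1)^N)`: `K₀ (r/32)^{N'} ≤ 1`. As `r/32 ≥ max(r, t_k)/64` for
the near roots and `t_k/2 ≥ max(r, t_k)/64` for the far ones:
`∏ max(r, t_k) ≤ 64^(2N) (2 B_0)^N (2 B_1)^N`. Take logarithms: `2 N log 64 + 2 N log 2 = N · 2 log 128`
and `#U.roots / 2 = N`. -/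
def OdaStmt : Prop := ∀ (F : ℂ[X]) (a : Fin 2 → ℂ) (N : ℕ) (U W : ℂ[X]), F ≠ 0 →
    Sol2 F a N U W → ∀ (ζ : ℂ) (r : ℝ), 0 < r → Odd (BHT.cnt norm F ζ (r / 2)) →
    (∀ α ∈ F.roots, ‖α - ζ‖ ≤ r / 2 ∨ r ≤ ‖α - ζ‖) → Hm vC U.roots a ζ r (2 * Real.log 128)

/-- CVX (40 lines). `J` is monotone and convex in `log R`. PROOF. Termwise, `t = v (ζ - p) ≥ 0`.
Monotone: clear (`0 < R`). Convex: if `t = 0` both sides are equal (`max R 0 = R` for `R > 0`). If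
`t > 0`: `log (max R t) = max (log R) (log t)`, and
`max ((1-τ) x + τ y) z ≤ (1-τ) max x z + τ max y z`. Induction on the multiset. -/
def CvxStmt : Prop := ∀ (E : Type) [Field E] (v : AbsoluteValue E ℝ) (Z : Multiset E) (p : E),
    (∀ R S : ℝ, 0 < R → R ≤ S → JJ v Z p R ≤ JJ v Z p S) ∧
    ∀ (R₀ R R₁ τ : ℝ), 0 < R₀ → 0 < R → 0 < R₁ → 0 ≤ τ → τ ≤ 1 →
      Real.log R = (1 - τ) * Real.log R₀ + τ * Real.log R₁ →
      JJ v Z p R ≤ (1 - τ) * JJ v Z p R₀ + τ * JJ v Z p R₁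

/-- OKN (80 lines; uses ODN). Nonarchimedean: `Good2` with `c₀ = 0`, `e = 0`.
PROOF. `F = ∏ (X - C (θ k))`, `F.roots` is the image of `Finset.univ.val` under `θ`
(`roots_prod_X_sub_C`-type lemma, see `roots_FF` in `Helper32_MNT/OTA.lean` or
`Helper31_MNT`/`OTN`), so `cnt v F ζ δ` = number of `k` with `v (θ k - ζ) ≤ δ`. Centre `ζ = θ i`. Second
case (`v (θ k - θ i) ≤ R` for all `k`): `cnt = 5`, ODN at `R`. First case: for `0 < δ < R` only `k = i`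
counts (`v (θ i - θ i) = 0`), `cnt = 1`, ODN gives `Hm` at every `δ ∈ (0, R)`; let `δ → R` from below:
both sides are continuous functions of `δ` on `(0, ∞)` (`ge_of_tendsto`/`le_of_tendsto_of_tendsto` as
in the row OTN of MNT). -/
def OknStmt : Prop := ∀ (E : Type) [Field E] (v : AbsoluteValue E ℝ), IsNonarchimedean v →
    ∀ (θ : Fin 5 → E) (a : Fin 2 → E) (N : ℕ) (U W : E[X]), Function.Injective θ → U.Splits →
    Sol2 (∏ i, (X - C (θ i))) a N U W → Good2 v 0 0 θ U.roots a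

/-- OKA (60 lines; uses ODA). Over `ℂ`: `Good2` with `c₀ = log 2`, `e = 2 log 128`. PROOF. Centre
`ζ = θ i`, radius `R`. First case (`R ≤ ‖θ k - θ i‖` for `k ≠ i`): in the closed disc of radius `R/2`
there is exactly one root (`k = i`), all others have distance `≥ R`. Second case
(`2 ‖θ k - θ i‖ ≤ R`, `exp (log 2) = 2`): all five roots are in the closed disc of radius `R/2`. ODA at
`r = R` in both cases. -/
def OkaStmt : Prop := ∀ (θ : Fin 5 → ℂ) (a : Fin 2 → ℂ) (N : ℕ) (U W : ℂ[X]),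
    Function.Injective θ → Sol2 (∏ i, (X - C (θ i))) a N U W →
    Good2 vC (Real.log 2) (2 * Real.log 128) θ U.roots a

/-- UVL (40 lines). `log |U(x)| ≤ #Z c₀ + J(|x - p|)` for `x ≠ p`.
PROOF. `|U(x)| = ∏ v (x - ζ)` (`Splits.eval_eq_prod_roots`, `|lead U| = 1` because `lead U ^ 2 = 1`);
`x - ζ = (x - p) - (ζ - p)`, so `v (x - ζ) ≤ exp c₀ max (v (x - p)) (v (ζ - p))` (`v (-t) = v t`), and
`U.eval x ≠ 0`, so all factors are positive; take logarithms and sum over the roots. -/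
def UvlStmt : Prop := ∀ (E : Type) [Field E] (v : AbsoluteValue E ℝ) (c₀ : ℝ), QU v c₀ →
    ∀ (U : E[X]), U.Splits → U.leadingCoeff ^ 2 = 1 → ∀ x p : E, x ≠ p → U.eval x ≠ 0 →
    Real.log (v (U.eval x)) ≤ (Multiset.card U.roots : ℝ) * c₀ + JJ v U.roots p (v (x - p))

/-- FVL (60 lines). Values of `f` at `x` in terms of the nearest root `θ i`, `r = v (x - θ i)`.
PROOF. For all `k`: `r ≤ v (x - θ k)` (hypothesis) and `θ i - θ k = (x - θ k) - (x - θ i)` gives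
`v (θ i - θ k) ≤ exp c₀ v (x - θ k)`. `f.eval x = ∏ (x - θ k)`, all factors nonzero, so
`log v (f.eval x) = ∑ log v (x - θ k)`. (i) `≥ 5 log r`. (ii) the term `k = i` is `log r`, the others are
`≥ log v (θ i - θ k) - c₀`. (iii) the terms `k = i, k₀` are `≥ log r`, the other three as in (ii). -/
def FvlStmt : Prop := ∀ (E : Type) [Field E] (v : AbsoluteValue E ℝ) (c₀ : ℝ), QU v c₀ →
    ∀ (θ : Fin 5 → E), Function.Injective θ → ∀ (x : E) (i : Fin 5), (∀ k, x ≠ θ k) →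
    (∀ k, v (x - θ i) ≤ v (x - θ k)) →
    5 * Real.log (v (x - θ i)) ≤ Real.log (v ((∏ k, (X - C (θ k))).eval x)) ∧
    Real.log (v (x - θ i)) + ∑ k ∈ Finset.univ.erase i, (Real.log (v (θ i - θ k)) - c₀) ≤
      Real.log (v ((∏ k, (X - C (θ k))).eval x)) ∧
    ∀ k₀, k₀ ≠ i →
      2 * Real.log (v (x - θ i)) +
          ∑ k ∈ (Finset.univ.erase i).erase k₀, (Real.log (v (θ i - θ k)) - c₀) ≤
        Real.log (v ((∏ k, (X - C (θ k))).eval x))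

/-- PTA (100 lines; uses CVX, UVL, FVL). The bound for one point near the roots.
`x = a j`, `y = a (1 - j)` is the other one, `θ i` the root nearest to `x`, `r = v (x - θ i) ≤ R₁ =
exp c₀ * ρ`, where `ρ` is a real number with `v (θ k - θ l) ≤ ρ` for all `k, l`. Put
`S = ∑_{k ≠ i} log v (θ i - θ k)`. CLAIM
`(1/2) log v (f(x)) - (1/2N) log v (U(x)) ≥ (1/2) S - (1/2) log max(R₁, v (y - θ i)) - 3 c₀ - e/2`.
PROOF. `#U.roots = 2 N` (`U` splits), `log v (U(x)) ≤ 2 N c₀ + J(r)` by UVL (`p = θ i`). Let `k₀ ≠ i` be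
such that `r₀ = v (θ k₀ - θ i)` is least.
CASE I, `r ≤ r₀`: `Good2` gives `J(r) ≤ N (log r + log max(r, v (y - θ i)) + e)`
(`max r (v (x - θ i)) = r`), and `max(r, ..) ≤ max(R₁, ..)`. With FVL (ii):
`(1/2)(log r + S - 4 c₀) - c₀ - (1/2)(log r + log max(R₁, ..) + e)`, the claim with `3 c₀`.
CASE II, `r₀ < r ≤ R₁`: `log r = (1-τ) log r₀ + τ log R₁` with
`τ = (log r - log r₀)/(log R₁ - log r₀) ∈ [0, 1]`. By CVX and `Good2` at `r₀` (first alternative) and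
at `R₁` (second alternative: `exp c₀ v (θ k - θ i) ≤ exp c₀ ρ`), with `m = log max(R₁, v (y - θ i))`:
`J(r) ≤ N ((1-τ) log r + τ log R₁ + m + e)` because `max r₀ (v (x - θ i)) = r`, `max R₁ r = R₁` and
`log max(r₀, v (y - θ i)) ≤ m`. FVL (iii) for `k₀`: `log v (f(x)) ≥ 2 log r + (S - log r₀) - 3 c₀`. So the
left side is `≥ log r + (S - log r₀)/2 - (3/2) c₀ - c₀ - (1/2)((1-τ) log r + τ log R₁ + m + e)`. Now
`log r - (1/2)(1-τ) log r - (1/2) τ log R₁ = (1/2) log r₀ + (1/2) τ² (log R₁ - log r₀) ≥ (1/2) log r₀`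
(insert `log r = (1-τ) log r₀ + τ log R₁`), the claim with `(5/2) c₀`. (`0 ≤ c₀` is part of `QU`.) -/
def PtaStmt : Prop := ∀ (E : Type) [Field E] (v : AbsoluteValue E ℝ) (c₀ e : ℝ), QU v c₀ → 0 ≤ e →
    ∀ (θ : Fin 5 → E) (a : Fin 2 → E) (N : ℕ) (U W : E[X]), Function.Injective θ → U.Splits →
    Sol2 (∏ i, (X - C (θ i))) a N U W → Good2 v c₀ e θ U.roots a →
    ∀ (ρ : ℝ), (∀ k l, v (θ k - θ l) ≤ ρ) → ∀ (j : Fin 2) (i : Fin 5), (∀ k, a j ≠ θ k) →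
    (∀ k, v (a j - θ i) ≤ v (a j - θ k)) → v (a j - θ i) ≤ Real.exp c₀ * ρ →
    1 / 2 * ∑ k ∈ Finset.univ.erase i, Real.log (v (θ i - θ k)) -
        1 / 2 * Real.log (max (Real.exp c₀ * ρ) (v (a (1 - j) - θ i))) - 3 * c₀ - e / 2 ≤
      1 / 2 * Real.log (v ((∏ k, (X - C (θ k))).eval (a j))) -
        1 / (2 * (N : ℝ)) * Real.log (v (U.eval (a j)))

/-- PTB (50 lines; uses UVL, FVL). The bound for one point far from the roots, notation of PTA,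
`r = v (x - θ i) > exp c₀ * ρ`. PROOF. `Good2` at the radius `r` (second alternative):
`J(r) ≤ N (log r + log max(r, v (y - θ i)) + e)`; UVL; FVL (i): the left side is
`≥ (5/2) log r - c₀ - (1/2)(log r + log max(r, ..) + e)`. -/
def PtbStmt : Prop := ∀ (E : Type) [Field E] (v : AbsoluteValue E ℝ) (c₀ e : ℝ), QU v c₀ → 0 ≤ e →
    ∀ (θ : Fin 5 → E) (a : Fin 2 → E) (N : ℕ) (U W : E[X]), Function.Injective θ → U.Splits →
    Sol2 (∏ i, (X - C (θ i))) a N U W → Good2 v c₀ e θ U.roots a →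
    ∀ (ρ : ℝ), (∀ k l, v (θ k - θ l) ≤ ρ) → ∀ (j : Fin 2) (i : Fin 5), (∀ k, a j ≠ θ k) →
    (∀ k, v (a j - θ i) ≤ v (a j - θ k)) → Real.exp c₀ * ρ < v (a j - θ i) →
    2 * Real.log (v (a j - θ i)) -
        1 / 2 * Real.log (max (v (a j - θ i)) (v (a (1 - j) - θ i))) - c₀ - e / 2 ≤
      1 / 2 * Real.log (v ((∏ k, (X - C (θ k))).eval (a j))) -
        1 / (2 * (N : ℝ)) * Real.log (v (U.eval (a j)))

/-- SMS (60 lines). The star of a root is at most half of the discriminant.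
`ℓ_ij = log ρ - log v (θ i - θ j) ≥ 0` for `i ≠ j`. PROOF. `log v (dsc θ) = ∑_{i<j} 2 log v (θ i - θ j) =
∑_i ∑_{j ≠ i} log v (θ i - θ j) = 20 log ρ - ∑_i ∑_{j ≠ i} ℓ_ij` and for a fixed `i` the pairs `(i, j)` and
`(j, i)` both occur in the double sum, the other terms are `≥ 0`:
`2 ∑_{j ≠ i} ℓ_ij ≤ ∑_i ∑_{j ≠ i} ℓ_ij`. So
`∑_{j ≠ i} log v (θ i - θ j) = 4 log ρ - ∑ ℓ_ij ≥ 4 log ρ - (20 log ρ - log v (dsc θ))/2`.
(`dsc` has 10 explicit factors: `Fin.prod_univ_succ`, `Finset.filter` by `decide`/`simp`.)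
Second part: `log v (dsc θ) ≤ 20 log ρ`. -/
def SmsStmt : Prop := ∀ (E : Type) [Field E] (v : AbsoluteValue E ℝ) (θ : Fin 5 → E) (ρ : ℝ),
    Function.Injective θ → (∀ k l, v (θ k - θ l) ≤ ρ) →
    (∀ i, 1 / 2 * Real.log (v (dsc θ)) - 6 * Real.log ρ ≤
      ∑ k ∈ Finset.univ.erase i, Real.log (v (θ i - θ k))) ∧
    Real.log (v (dsc θ)) ≤ 20 * Real.log ρ

/-- CMB (120 lines; uses PTA, PTB, SMS). The sum over the two points.
`c_j = (1/2) log v (f(a j)) - (1/2N) log v (U(a j))`; CLAIM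
`c_0 + c_1 ≥ (1/2) log v (dsc θ) - 7 log ρ - 8 c₀ - e` for every `ρ > 0` with `v (θ k - θ l) ≤ ρ` for all
`k, l`.
PROOF. `R₁ = exp c₀ ρ`, `D = log v (dsc θ) ≤ 20 log ρ` (SMS). Let `θ i_j` be the root nearest to `a j`,
`r_j = v (a j - θ i_j)`. For `{j, j'} = {0, 1}`:
`v (a j' - θ i_j) ≤ exp c₀ max(r_j', v (θ i_j' - θ i_j)) ≤ exp c₀ max(r_j', ρ)`. (1)
(a) `r_0, r_1 ≤ R₁`. By (1) `log max(R₁, v (a j' - θ i_j)) ≤ c₀ + log R₁ = 2 c₀ + log ρ`
(`max(r_j', ρ) ≤ R₁`, `0 ≤ c₀`). PTA twice and SMS: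
`c_0 + c_1 ≥ 2 (1/2) (D/2 - 6 log ρ) - (2 c₀ + log ρ) - 6 c₀ - e = D/2 - 7 log ρ - 8 c₀ - e`.
(b) `r_j > R₁ ≥ r_j'`. PTB for `j`: by (1) the maximum is `≤ exp c₀ max(R₁, r_j) = exp c₀ r_j`, so
`c_j ≥ (3/2) log r_j - (3/2) c₀ - e/2`. PTA for `j'`: `v (a j - θ i_j') ≤ exp c₀ max(r_j, ρ) ≤ exp c₀ r_j`,
so `c_j' ≥ (1/2)(D/2 - 6 log ρ) - (1/2)(c₀ + log r_j) - 3 c₀ - e/2`. Sum
`≥ log r_j + D/4 - 3 log ρ - 5 c₀ - e`, and `log r_j ≥ log ρ`,
`D/4 - 2 log ρ ≥ D/2 - 7 log ρ` because `D/4 ≤ 5 log ρ`.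
(c) both `> R₁`: by (1) `v (a j' - θ i_j) ≤ exp c₀ m`, `m = max(r_0, r_1)`, so
`c_j ≥ 2 log r_j - (1/2)(c₀ + log m) - c₀ - e/2`, sum
`≥ 2 log r_0 + 2 log r_1 - log m - 3 c₀ - e ≥ 3 log ρ - 3 c₀ - e ≥ D/2 - 7 log ρ - 3 c₀ - e`. -/
def CmbStmt : Prop := ∀ (E : Type) [Field E] (v : AbsoluteValue E ℝ) (c₀ e : ℝ), QU v c₀ → 0 ≤ e →
    ∀ (θ : Fin 5 → E) (a : Fin 2 → E) (N : ℕ) (U W : E[X]), Function.Injective θ → U.Splits →
    Sol2 (∏ i, (X - C (θ i))) a N U W → Good2 v c₀ e θ U.roots a → (∀ j k, a j ≠ θ k) →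
    ∀ (ρ : ℝ), 0 < ρ → (∀ k l, v (θ k - θ l) ≤ ρ) →
    1 / 2 * Real.log (v (dsc θ)) - 7 * Real.log ρ - 8 * c₀ - e ≤
      ∑ j, (1 / 2 * Real.log (v ((∏ k, (X - C (θ k))).eval (a j))) -
        1 / (2 * (N : ℝ)) * Real.log (v (U.eval (a j))))

/-- TRF (80 lines). Translation between the interface (`A`, `M`, `Lv`) and `Sol2`.
PROOF. `A` monic, split, of degree 2: `A = (X - C (a 0)) * (X - C (a 1))`. `M = 2 N`, `1 ≤ N`
(`Even M`, `0 < M`). `IsCoprime A U`: `U.eval (a i) ≠ 0`. The equation at `x = θ k`... is not needed;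
at `x = a j` it gives `U(a j)² = f(a j) W(a j)²`, so `f(a j) ≠ 0`, `a j ≠ θ k`. Degrees:
`U² = A ^ M + f W²`, `deg A ^ M = 2 M` even, `deg f W²` odd (or `W = 0`), `deg U²` even: so
`deg f W² < 2 M` (otherwise the right side has odd degree `> 2 M`, the sum of terms of different
degrees), `deg U = M` and `lead U ^ 2 = lead (A ^ M) = 1`. `Lv`: `resultant_eq_prod_eval` with `A`
monic, `A.roots = {a 0, a 1}`: `resultant A (4 * f) = ∏ 4 f(a j) = 16 f(a 0) f(a 1)`,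
`resultant A (2 * U) = 4 U(a 0) U(a 1)` (the lemma has a free degree bound, here `natDegree`), so
`Lv v f A U M = ∑_j c_j + (1/2) log v 16 - (1/M) log v 4` with `c_j` as in CMB;
`log v 16 = 4 log v 2`, `log v 4 = 2 log v 2`. -/
def TrfStmt : Prop := ∀ (E : Type) [Field E] (v : AbsoluteValue E ℝ) (θ : Fin 5 → E)
    (A U W : E[X]) (M : ℕ), (2 : E) ≠ 0 → A.Monic → A.natDegree = 2 → A.Splits → IsCoprime A U →
    0 < M → Even M → U ^ 2 - (∏ i, (X - C (θ i))) * W ^ 2 = A ^ M →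
    ∃ (a : Fin 2 → E) (N : ℕ), M = 2 * N ∧ Sol2 (∏ i, (X - C (θ i))) a N U W ∧
      (∀ j k, a j ≠ θ k) ∧
      Lv v (∏ i, (X - C (θ i))) A U M =
        ∑ j, (1 / 2 * Real.log (v ((∏ k, (X - C (θ k))).eval (a j))) -
          1 / (2 * (N : ℝ)) * Real.log (v (U.eval (a j)))) +
        (2 - 1 / (N : ℝ)) * Real.log (v 2)

/-- AOT (60 lines; uses CMB, TRF, OKN, OKA). PROOF. `ρ = rho v θ` is positive (`θ 0 ≠ θ 1`) and
`v (θ k - θ l) ≤ ρ` (`le_ciSup`, finite index set). Nonarchimedean: `QU v 0`, `c2 = 2`: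
`(2 - 1/N) log v 2 ≥ 2 log v 2` because `v 2 ≤ 1` (`v (1 + 1) ≤ max 1 1`, `v 2 > 0`). `ℂ`: `v = vC`,
`QU vC (log 2)` (`‖a + b‖ ≤ 2 max`), all polynomials split, `(2 - 1/N) log 2 ≥ 0`,
`ci = 8 log 2 + 2 log 128`; `Lv vC = Lv (fun z => ‖z‖)` and `rho vC = rho (fun z => ‖z‖)` by `rfl`. -/
def AotStmt : Prop := AOutStatement

end Pool.Agent.SZT
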