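import Pool.Agent.SZT.DefsB

/-!
# SZT, block B (odd simple nodes): statements

ROWS. Analysis: `SUM STR LIP DIV FAC SLO PMU SQR EXL`.  Node: `NOD CHT`.  Algebra: `GAU SCH ORD INF`.
Inequality: `NIN EIA EIN`.  Ideals: `INV NRM REP IMU IMI ADD KAP`.  Integrality: `LIM RAT NSZ`.
Places: `CPL ROO RVL BOU`.

DELIVER: `Pool/Agent/HelperNN_SZT/XXX.lean`, `import Pool.Agent.SZT.StmtsB`, namespace
`Pool.Agent.SZT.HNN`, theorem `xxx (hypotheses = the statements in the column uses, in this order) :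
B.XxxStmt`.  No straight double quotes, no `congr!`, `convert`, `native_decide`, `notation`, `sorry`.
-/

noncomputable section

open Polynomial H58Q

namespace Pool.Agent.SZT.B

/-! ## Analysis on an annulus -/

/-- SUM.  With `t = pos r X ∈ (0, 1)`, `‖X‖ = r^t`, the term is at most
`min (‖X‖^k) (μ (‖X‖/r)^k) ≤ (‖X‖^k)^(1-t) (μ (‖X‖/r)^k)^t = μ^t` (a minimum is at most the
weighted geometric mean; `(‖X‖^k)^(1-t) (‖X‖/r)^(kt) = r^(tk(1-t) + (t-1)kt) = 1`).  The terms tend to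
`0`: `≤ ‖X‖^k` for `k → +∞`, `≤ μ (‖X‖/r)^k` for `k → -∞` (`Int.cofinite_eq`,
`NonarchimedeanAddGroup.summable_of_tendsto_cofinite_zero`); the norm of the sum is at most the
supremum of the norms of the terms (`IsUltrametricDist.norm_tsum_le_of_forall_le`). -/
def SumStmt : Prop :=
  ∀ (L : Type) [NormedField L] [IsUltrametricDist L] [CompleteSpace L] (r μ : ℝ) (c : ℤ → L)
    (X : L), 0 < r → r < 1 → 0 < μ → Bdd r μ c → Ann r X →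
    0 < pos r X ∧ pos r X < 1 ∧ r ^ pos r X = ‖X‖ ∧ (∀ k : ℤ, ‖c k * X ^ k‖ ≤ μ ^ pos r X) ∧
      Summable (fun k : ℤ => c k * X ^ k) ∧ ‖val c X‖ ≤ μ ^ pos r X

/-- STR.  The inequality of SUM is strict for every term if `μ` is not an integral power of `r`
(equality in `min (a) (b) ≤ a^(1-t) b^t`, `0 < t < 1`, needs `a = b`, i.e. `μ = r^k`); the terms tend
to `0`, so all but finitely many are `≤ μ^t / 2`, and the finitely many others have a maximum which is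
`< μ^t`. -/
def StrStmt : Prop :=
  ∀ (L : Type) [NormedField L] [IsUltrametricDist L] [CompleteSpace L] (r μ : ℝ) (c : ℤ → L)
    (X : L), 0 < r → r < 1 → 0 < μ → Bdd r μ c → Ann r X → (∀ k : ℤ, μ ≠ r ^ k) →
    ‖val c X‖ < μ ^ pos r X

/-- LIP.  `‖X^k - X₀^k‖ ≤ ‖X - X₀‖ ‖X₀‖^(k-1)` for all integers `k` if `‖X‖ = ‖X₀‖`, and
`‖c k‖ ‖X₀‖^k ≤ 1` (SUM with `μ = 1`); subtract the two series. -/
def LipStmt : Prop :=
  ∀ (L : Type) [NormedField L] [IsUltrametricDist L] [CompleteSpace L] (r : ℝ) (c : ℤ → L)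
    (X X₀ : L), 0 < r → r < 1 → Bdd r 1 c → Ann r X₀ → ‖X‖ = ‖X₀‖ →
    ‖val c X - val c X₀‖ ≤ ‖X - X₀‖ / ‖X₀‖

/-- DIV (division by `1 - X₁/X`).  `g k = ∑_{l ≥ 0} c (k+l) X₁^l` (converges, `‖g k‖ ≤ 1`), so
`c k = g k - X₁ g (k+1)` and `val c X = (1 - X₁/X) val g X` on the annulus once `g` is bounded:
`X₁^k g k = ∑_{j ≥ k} c j X₁^j = - ∑_{j < k} c j X₁^j` because `val c X₁ = 0`, and
`‖c j X₁^j‖ ≤ μ (‖X₁‖/r)^j ≤ μ (‖X₁‖/r)^(k-1)` for `j < k`; hence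
`‖g k‖ ≤ μ r^(-k) (r/‖X₁‖)`. -/
def DivStmt : Prop :=
  ∀ (L : Type) [NormedField L] [IsUltrametricDist L] [CompleteSpace L] (r μ : ℝ) (c : ℤ → L)
    (X₁ : L), 0 < r → r < 1 → 0 < μ → μ ≤ 1 → Bdd r μ c → Ann r X₁ → val c X₁ = 0 →
    ∃ g : ℤ → L, Bdd r (μ * (r / ‖X₁‖)) g ∧
      ∀ X : L, Ann r X → val c X = (1 - X₁ / X) * val g X

open scoped Classical in
/-- FAC.  Induction on the multiset `Z` (for all `c`, `μ`).  `Z = x ::ₘ Z'`: `Grow (val c) x m` with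
`m ≥ 1` and continuity (LIP; the points `x (1 + x^j)`, `j → ∞`, tend to `x`, are `≠ x` and have the same
norm) give `val c x = 0`; DIV gives `g`; growth of `g` for `x' ∈ Z'`: at `x' = x` divide by
`‖X - x‖ / ‖X‖` (`Multiset.count_cons_self`), at `x' ≠ x` the factor `‖1 - x/X‖ = ‖X - x‖/‖X‖` is
constant near `x'`.  (`μ (r/‖x‖) ≤ 1`, `> 0`.) -/
def FacStmt : Prop :=
  ∀ (L : Type) [NormedField L] [IsUltrametricDist L] [CompleteSpace L] (r μ : ℝ) (c : ℤ → L)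
    (Z : Multiset L), 0 < r → r < 1 → 0 < μ → μ ≤ 1 → Bdd r μ c → (∀ x ∈ Z, Ann r x) →
    (∀ x ∈ Z, Grow (val c) x (Z.count x)) →
    ∃ g : ℤ → L, Bdd r (μ * (Z.map fun x => r / ‖x‖).prod) g ∧
      ∀ X : L, Ann r X → val c X = (Z.map fun x => 1 - x / X).prod * val g X

open scoped Classical in
/-- SLO (the sum of the positions of the zeros is an integer).  `r = ‖η‖`.  `Z = 0`: trivial.  FAC:
`val c X = ∏ (1 - x/X) val g X`, `g` bounded by `μ = ∏ r/‖x‖ = r^(∑ (1 - pos x))`.  Since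
`(X - x)(1 - η/(X x)) = - (η/x) (1 - x/X) (1 - X x/η)` up to sign and
`∏ (1 - x/(η/X)) = ∏ (1 - X x/η)`, the norm relation gives `‖val g X‖ ‖val g (η/X)‖ = μ` at every `X`
with `X ∉ Z`, `η/X ∉ Z` (such `X` exists: `x (1 + x^j)` for large `j`, `x ∈ Z`).  By SUM
`‖val g X‖ ≤ μ^t`, `‖val g (η/X)‖ ≤ μ^(1-t)` (`pos (η/X) = 1 - pos X`), so both are equalities, and
STR gives `μ = r^k`: `card Z - ∑ pos x = k`. -/
def SloStmt : Prop :=
  ∀ (L : Type) [NormedField L] [IsUltrametricDist L] [CompleteSpace L] (η : L) (c : ℤ → L)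
    (Z : Multiset L), η ≠ 0 → ‖η‖ < 1 → Bdd ‖η‖ 1 c → (∀ x ∈ Z, Ann ‖η‖ x) →
    (∀ x ∈ Z, Grow (val c) x (Z.count x)) →
    (∀ X : L, Ann ‖η‖ X → ‖val c X‖ * ‖val c (η / X)‖ =
      (Z.map fun x => ‖(X - x) * (1 - η / (X * x))‖).prod) →
    ∃ k : ℤ, (Z.map (pos ‖η‖)).sum = k

/-- PMU (power series).  Summability: terms tend to `0`; `Summable.mul_of_nonarchimedean`,
`Summable.tsum_mul_tsum_eq_tsum_sum_range` for the Cauchy product; the last part is a finite sum (`Polynomial.eval_eq_sum_range`, `tsum_eq_sum`). -/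
def PmuStmt : Prop :=
  ∀ (L : Type) [NormedField L] [IsUltrametricDist L] [CompleteSpace L],
    (∀ (a : ℕ → L) (z : L), (∀ k, ‖a k‖ ≤ 1) → ‖z‖ < 1 →
      Summable (fun k : ℕ => a k * z ^ k) ∧ ‖pval a z‖ ≤ 1 ∧ ‖pval a z - a 0‖ ≤ ‖z‖) ∧
    (∀ (a b : ℕ → L) (z : L), (∀ k, ‖a k‖ ≤ 1) → (∀ k, ‖b k‖ ≤ 1) → ‖z‖ < 1 →
      pval (fun k => ∑ i ∈ Finset.range (k + 1), a i * b (k - i)) z = pval a z * pval b z) ∧
    ∀ (p : L[X]) (z : L), pval (fun k => p.coeff k) z = p.eval z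

/-- SQR (square root of an integral polynomial with square constant term as a power series).
`s 0 = s₀` and recursively `s k = (h_k - ∑_{0<i<k} s i s (k-i)) / (2 s₀)` (`‖2 s₀‖ = 1`, so
`‖s k‖ ≤ 1`); then `∑_{i+j=k} s i s j = h_k` for all `k`, use PMU. -/
def SqrStmt : Prop :=
  ∀ (L : Type) [NormedField L] [IsUltrametricDist L] [CompleteSpace L] (h : L[X]) (s₀ : L),
    ‖(2 : L)‖ = 1 → PInt h → s₀ ^ 2 = h.coeff 0 → ‖s₀‖ = 1 → ∃ s : ℕ → L, Sq h s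

/-- EXL.  (1) For one integral power series `a`: `z = (X + η/X)/2`,
`z^m = 2^(-m) ∑_i C(m, i) η^i X^(m-2i)`; put `c k = ∑_i a (k+2i) 2^(-(k+2i)) C(k+2i, i) η^i` (sum over
`i ≥ 0` with `k + 2i ≥ 0`, so `i ≥ -k`, and `i ≤ k + 2i`).  Every term has norm `≤ ‖η‖^i ≤ 1` and, as
`i ≥ -k`, `≤ ‖η‖^(-k)`; the double series over `(m, i)` has terms of norm `≤ ‖X‖^(m-i) ‖η/X‖^i`, which
tends to `0` on `ℕ × ℕ` (`i ≤ m`), so it may be summed in any order.  (2) Multiplication by `X` and by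
`η/X`: `c (k-1)` and `η c (k+1)` are again bounded by `1` and `‖η‖^(-k)`; add (`‖2‖ = 1`). -/
def ExlStmt : Prop :=
  ∀ (L : Type) [NormedField L] [IsUltrametricDist L] [CompleteSpace L] (η : L) (a b : ℕ → L),
    ‖(2 : L)‖ = 1 → η ≠ 0 → ‖η‖ < 1 → (∀ k, ‖a k‖ ≤ 1) → (∀ k, ‖b k‖ ≤ 1) →
    ∃ c : ℤ → L, Bdd ‖η‖ 1 c ∧ ∀ X : L, Ann ‖η‖ X →
      val c X = pval a ((X + η / X) / 2) + (X - η / X) / 2 * pval b ((X + η / X) / 2)

/-! ## The node -/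

/-- NOD (facts about a node; no completeness).  `‖θ 0 - θ 1‖ < 1` and `‖2‖ = 1` give (a).
`θ i - e = (θ i - θ 0) + (θ 0 - θ 1)/2` has norm `1` for `i ≥ 2` (b).  (c) is
`(e + z - θ 0)(e + z - θ 1) = z² - η`.  (e): `‖f(a)‖ < 1` gives `‖a - θ i‖ < 1` for some `i`; `i = 0, 1`
would give `‖a - e‖ < 1`; for `i ≥ 2` all other `‖a - θ j‖ = 1`, and
`f'(a) = ∑_i ∏_{j ≠ i} (a - θ j)` has exactly one term of norm `1`.  (f): `Res(f, f') = ∏ f'(θ i)`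
(`resultant_eq_prod_eval`), `f'(θ i) = ∏_{j ≠ i} (θ i - θ j)`, of norm `‖θ 0 - θ 1‖` for `i = 0, 1` and
`1` otherwise; `‖η‖ = ‖θ 0 - θ 1‖²`. -/
def NodStmt : Prop :=
  ∀ (L : Type) [NormedField L] [IsUltrametricDist L] (f : L[X]) (θ : Fin 5 → L), Node f θ →
    (eta θ ≠ 0 ∧ ‖eta θ‖ < 1 ∧ ‖ctr θ‖ ≤ 1) ∧
    (PInt (hh θ) ∧ ‖(hh θ).coeff 0‖ = 1 ∧ ∀ z : L, ‖z‖ < 1 → ‖(hh θ).eval z‖ = 1) ∧
    (∀ z : L, f.eval (ctr θ + z) = (z ^ 2 - eta θ) * (hh θ).eval z) ∧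
    (PInt f ∧ f.Monic ∧ f.natDegree = 5) ∧
    (∀ a : L, ‖a‖ ≤ 1 → 1 ≤ ‖a - ctr θ‖ → ‖f.eval a‖ < 1 → ‖(derivative f).eval a‖ = 1) ∧
    ‖resultant f (derivative f)‖ = ‖eta θ‖

/-- CHT (the chart).  With `z = (X + η/X)/2`, `‖z‖ < 1`; `s(z)² = h(z)` has norm `1`, so `‖s(z)‖ = 1`;
`yy² = ((X - η/X)/2)² h(z) = (z² - η) h(z) = f(e + z)`.  Conversely `X = z + y/s(z)` satisfies
`X (z - y/s(z)) = z² - y²/h(z) = η`, so `X ≠ 0`, `η/X = z - y/s(z)`, and both have norm `< 1`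
(`‖y‖² = ‖z² - η‖ < 1`). -/
def ChtStmt : Prop :=
  ∀ (L : Type) [NormedField L] [IsUltrametricDist L] [CompleteSpace L] (f : L[X])
    (θ : Fin 5 → L) (s : ℕ → L), Node f θ → Sq (hh θ) s →
    (∀ X : L, Ann ‖eta θ‖ X → ‖(X + eta θ / X) / 2‖ < 1 ∧ yy θ s X ^ 2 = f.eval (xx θ X) ∧
      ‖yy θ s X‖ = ‖X - eta θ / X‖ ∧ crd θ s (xx θ X) (yy θ s X) = X ∧
      Ann ‖eta θ‖ (eta θ / X) ∧ xx θ (eta θ / X) = xx θ X ∧ yy θ s (eta θ / X) = -yy θ s X ∧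
      pos ‖eta θ‖ (eta θ / X) = 1 - pos ‖eta θ‖ X ∧ ‖xx θ X‖ ≤ 1 ∧ ‖xx θ X - ctr θ‖ < 1) ∧
    (∀ a y : L, y ^ 2 = f.eval a → ‖a - ctr θ‖ < 1 → Ann ‖eta θ‖ (crd θ s a y) ∧
      xx θ (crd θ s a y) = a ∧ yy θ s (crd θ s a y) = y ∧
      crd θ s a (-y) = eta θ / crd θ s a y) ∧
    ∀ X X' : L, X ≠ 0 → X' ≠ 0 →
      xx θ X - xx θ X' = (X - X') * (1 - eta θ / (X * X')) / 2

/-! ## Algebra over an ultrametric field -/

/-- GAU (Gauss norm of the norm form).  Let `G` be the maximum of the norms of all coefficients of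
`α`, `β`, attained by a coefficient `γ`.  The coefficient of `α² - f β²` at `max (2 i) (2 j + deg f)`,
`i`, `j` the largest indices with `‖α_i‖ = G`, `‖β_j‖ = G` (if they exist), has norm `G²` (the two
numbers have different parity, `f` is monic and integral), all coefficients have norm `≤ G²`.  The
maximal norm of the coefficients of `C κ * A` is `‖κ‖ ∏ max 1 ‖a‖` (Gauss lemma for the monic linear
factors; or `Polynomial.gaussNorm`). -/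
def GauStmt : Prop :=
  ∀ (L : Type) [NormedField L] [IsUltrametricDist L] (f α β A : L[X]) (κ : L), f.Monic →
    Odd f.natDegree → PInt f → A.Monic → A.Splits → κ ≠ 0 → α ^ 2 - f * β ^ 2 = C κ * A →
    ∃ γ : L, γ ≠ 0 ∧ ‖γ‖ ^ 2 = ‖κ‖ * (A.roots.map fun a => max 1 ‖a‖).prod ∧
      (∀ i, ‖α.coeff i‖ ≤ ‖γ‖) ∧ ∀ i, ‖β.coeff i‖ ≤ ‖γ‖

/-- SCH (algebraic Schwarz lemma).  Induction on `m` (for all `α`, `β`).  `m = 0`: clear.  `m + 1`: put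
`g = (F - F(a))/(x - a)`, `α = α(a) + (x - a) α₁`, `β = β(a) + (x - a) β₁` (all integral), so that in
`L[x, y]/(y² - F)`, with `α(a) + β(a) y₀ = 0` and `(y - y₀)(y + y₀) = (x - a) g`:
`g (α + β y) = (y - y₀) (α' + β' y)`, `α' = y₀ α₁ + β₁ F + β(a) g`, `β' = α₁ + y₀ β₁`, both integral.
Norms: `g² (α² - F β²) = (y₀² - F)(α'² - F β'²)`, i.e. `g (α² - F β²) = - (x - a)(α'² - F β'²)`
(`g ≠ 0`, otherwise `F'(a) = g(a) = 0` and the claim is clear), so `(x - a)^m ∣ α'² - F β'²`.  At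
`(a, -y₀)`: `g(a) (α(a) - β(a) y₀) = - 2 y₀ (α'(a) - β'(a) y₀)`; so `α'(a) - β'(a) y₀ ≠ 0` if
`g(a) ≠ 0`, and for `m ≥ 1` the product `(α'(a) + β'(a) y₀)(α'(a) - β'(a) y₀) = (α'² - F β'²)(a) = 0`
gives `α'(a) + β'(a) y₀ = 0`.  Apply the induction hypothesis (for `m = 0` only the bound `≤ 1` is
needed) and multiply by `‖2 y₀‖`. -/
def SchStmt : Prop :=
  ∀ (L : Type) [NormedField L] [IsUltrametricDist L] (F α β : L[X]) (a y₀ : L) (m : ℕ),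
    PInt F → PInt α → PInt β → ‖a‖ ≤ 1 → y₀ ^ 2 = F.eval a → (X - C a) ^ m ∣ α ^ 2 - F * β ^ 2 →
    α.eval a + β.eval a * y₀ = 0 → α.eval a - β.eval a * y₀ ≠ 0 →
    ‖(derivative F).eval a‖ ^ m * ‖α.eval a - β.eval a * y₀‖ ≤ ‖2 * y₀‖ ^ m

/-- ORD (integral points outside the node).  `‖f(a)‖ ≤ 1`.  If `‖f(a)‖ = 1` then `‖y‖ = 1` and the left
side is `≤ 1`.  If `‖f(a)‖ < 1` then `‖f'(a)‖ = 1` by NOD (e); SCH with `m = M`
(`(x - a)^M ∣ A^M`). -/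
def OrdStmt : Prop :=
  ∀ (L : Type) [NormedField L] [IsUltrametricDist L] (f : L[X]) (θ : Fin 5 → L) (α β A : L[X])
    (κ a y : L) (M : ℕ), Node f θ → PInt α → PInt β → α ^ 2 - f * β ^ 2 = C κ * A ^ M →
    A.eval a = 0 → ‖a‖ ≤ 1 → 1 ≤ ‖a - ctr θ‖ → y ^ 2 = f.eval a → α.eval a + β.eval a * y = 0 →
    α.eval a - β.eval a * y ≠ 0 → ‖α.eval a - β.eval a * y‖ ≤ ‖y‖ ^ M

/-- INF (points with `‖a‖ > 1`).  `‖a - θ i‖ = ‖a‖`, so `‖y‖² = ‖a‖^5`.  Let `d = deg A`,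
`D = m d`.  `deg α ≤ D`, and `β ≠ 0` (as `α(a) - β(a) y ≠ 0 = α(a) + β(a) y`) with
`2 deg β + 5 ≤ 2 D`, so `deg β ≤ D - 3`, `3 ≤ D` (no cancellation in `α² - f β²`:
`H58Q.natDegree_norm_le_iff`).  Put `α* = reflect D α`, `β* = reflect (D - 3) β`,
`F = reflect 6 f`, `A* = reflect d A`, `t = 1/a`, `y₀ = y t³`.  Then (`Polynomial.reflect_mul`)
`α*² - F β*² = C κ A*^(2m)`, `A*(t) = t^d A(a) = 0`, `y₀² = F(t)`,
`α*(t) ∓ β*(t) y₀ = t^D (α(a) ∓ β(a) y)`, `‖F'(t)‖ = 1` (`F = x + ∑_{i<5} f_i x^(6-i)`).  SCH with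
exponent `2 m`: `‖a‖^(-D) ‖α(a) - β(a) y‖ ≤ ‖2 y₀‖^(2m) = (‖a‖^5/‖a‖^6)^m`. -/
def InfStmt : Prop :=
  ∀ (L : Type) [NormedField L] [IsUltrametricDist L] (f : L[X]) (θ : Fin 5 → L) (α β A : L[X])
    (κ a y : L) (m : ℕ), Node f θ → PInt α → PInt β → A.Monic → κ ≠ 0 →
    α ^ 2 - f * β ^ 2 = C κ * A ^ (2 * m) → A.eval a = 0 → 1 < ‖a‖ → y ^ 2 = f.eval a →
    α.eval a + β.eval a * y = 0 → α.eval a - β.eval a * y ≠ 0 →
    ‖y‖ ^ 2 = ‖a‖ ^ 5 ∧ ‖α.eval a - β.eval a * y‖ ≤ ‖a‖ ^ (m * (A.natDegree - 1))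

/-! ## The inequality at one node -/

open scoped Classical in
/-- NIN (node inequality).  Write `Z = nz θ s A B`, `r = ‖eta θ‖`.  `F(X) = α(x(X)) + β(x(X)) y(X)` is
`val c X` with `Bdd r 1 c` (EXL with the coefficients of `α(e + z)` and of `β(e + z) s(z)`,
`e = ctr θ` integral, PMU).  For `x ∈ Z`, `a = xx θ x` is a root of `A`, `B(a) = yy θ s x` (CHT), and
`count x Z = count a A.roots` because `a ↦ crd θ s a (B(a))` is injective on the filtered roots.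
`‖F(X)‖ ‖F(η/X)‖ = ‖κ‖ ‖A(xx X)‖^M ≤ C ‖X - x‖^(M count)` near `x`, and
`F(η/x) = α(a) - β(a) B(a) ≠ 0`, so `‖F(η/X)‖` is constant near `x` (LIP):
`Grow F x (count x (M • Z))`.  FAC for `M • Z`: `F(X) = ∏_{x' ∈ Z} (1 - x'/X)^M val g X`,
`‖val g X‖ ≤ (∏ (r/‖x'‖)^M)^(pos X)` (SUM).  Put `X = η/x`, `pos X = 1 - pos x`
(`Multiset.map_nsmul`, `Multiset.prod_nsmul`, `Multiset.count_nsmul`). -/
def NinStmt : Prop :=
  ∀ (L : Type) [NormedField L] [IsUltrametricDist L] [CompleteSpace L] (f : L[X])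
    (θ : Fin 5 → L) (s : ℕ → L) (α β A B : L[X]) (κ : L) (M : ℕ), Node f θ → Sq (hh θ) s →
    PInt α → PInt β → A.Monic → A.Splits → 1 ≤ M → α ^ 2 - f * β ^ 2 = C κ * A ^ M →
    (∀ a ∈ A.roots, B.eval a ^ 2 = f.eval a ∧ α.eval a + β.eval a * B.eval a = 0 ∧
      α.eval a - β.eval a * B.eval a ≠ 0) →
    ∀ x ∈ nz θ s A B, ‖α.eval (xx θ x) - β.eval (xx θ x) * yy θ s x‖ ≤
      (((nz θ s A B).map fun x' => ‖1 - x' * x / eta θ‖ *
        (‖eta θ‖ / ‖x'‖) ^ (1 - pos ‖eta θ‖ x)).prod) ^ M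

/-- EIA (arithmetic of the node inequality).  `r = ‖η‖`, `t_x = pos r x ∈ (0, 1)`, `‖x‖ = r^(t_x)`.
All factors on the right are positive because `w x > 0`.
`(1/M) log w(x) ≤ ∑_{x'} (log ‖1 - x' x/η‖ + (1 - t_x)(1 - t_{x'}) log r)`, and
`log ‖x - η/x‖ = (1 - t_x) log r + log ‖1 - x x/η‖`.  So the term `x' = x` cancels
`log ‖1 - x x/η‖`, and with `S' = ∑ (1 - t_x)` the right side of the claim is
`≥ log r (S' - S'²) - ∑_{x' ≠ x} log ‖1 - x' x/η‖` (sum over ordered pairs of different positions).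
`card Z = 0`: `0 ≥ 0`.  `card Z = 1`: `S' - S'² = t (1 - t)`.  `card Z = 2`:
`‖1 - x₁ x₂/η‖ ≤ max 1 (r^(t₁+t₂-1))`.  If `S = t₁ + t₂ ≥ 1`: `≥ log r (S' - S'²)`, `S' = 2 - S`,
`fract S (1 - fract S) = (S-1)(2-S)`.  If `S < 1`: `≥ log r (S' - S'² + 2 (1 - S))`
`= log r S (1 - S)`. -/
def EiaStmt : Prop :=
  ∀ (L : Type) [NormedField L] [IsUltrametricDist L] (η : L) (Z : Multiset L) (w : L → ℝ)
    (M : ℕ), η ≠ 0 → ‖η‖ < 1 → 1 ≤ M → (∀ x ∈ Z, Ann ‖η‖ x) → Z.card ≤ 2 →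
    (∀ x ∈ Z, 0 < w x) →
    (∀ x ∈ Z, w x ≤ ((Z.map fun x' => ‖1 - x' * x / η‖ *
      (‖η‖ / ‖x'‖) ^ (1 - pos ‖η‖ x)).prod) ^ M) →
    Real.log ‖η‖ * (Int.fract (Z.map (pos ‖η‖)).sum * (1 - Int.fract (Z.map (pos ‖η‖)).sum)) ≤
      (Z.map fun x => Real.log ‖x - η / x‖ - 1 / (M : ℝ) * Real.log (w x)).sum

/-- EIN (the local inequality over `L`).  `d = A.natDegree = card A.roots ≤ 2`, `M = 2 m`.  GAU for
`A^M` (`roots_pow`) gives `γ`, `‖γ‖² = ∏ (max 1 ‖a‖)^M`; put `α = C γ⁻¹ U`, `β = C γ⁻¹ W`,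
`κ = γ⁻²`.  `2 U(a) = γ (α(a) - β(a) B(a))`, `B(a) ≠ 0`,
`(1/2) log ‖4 f(a)‖ = log ‖B(a)‖` (`‖2‖ = 1`).  So the right side is
`∑_a (log ‖B(a)‖ - (1/M) log ‖α(a) - β(a) B(a)‖) - (d/2) ∑_a log (max 1 ‖a‖)`.  Terms with `‖a‖ ≤ 1`,
`‖a - e‖ ≥ 1` are `≥ 0` (ORD); terms with `‖a‖ > 1` are `≥ (5/2 - (d-1)/2) log ‖a‖` (INF, note
`‖a - e‖ ≥ 1`); the terms with `‖a - e‖ < 1` are `≥` the left side by NIN and EIA
(`w x = ‖α(xx x) - β(xx x) yy x‖`; `‖B(a)‖ = ‖x - η/x‖` for `x = crd a (B a)`, CHT; split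
`A.roots` by `Multiset.filter_add_not`).  Total: left side `+ (3 - d) ∑_{‖a‖>1} log ‖a‖`. -/
def EinStmt : Prop :=
  ∀ (L : Type) [NormedField L] [IsUltrametricDist L] [CompleteSpace L] (f : L[X])
    (θ : Fin 5 → L) (s : ℕ → L) (A B U W : L[X]) (M : ℕ), Node f θ → Sq (hh θ) s → A.Monic →
    A.Splits → A.natDegree ≤ 2 → Even M → 0 < M → U ^ 2 - f * W ^ 2 = A ^ M →
    (∀ a ∈ A.roots, B.eval a ^ 2 = f.eval a ∧ U.eval a + W.eval a * B.eval a = 0 ∧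
      U.eval a ≠ 0) →
    Real.log ‖eta θ‖ * (Int.fract (ss θ s A B) * (1 - Int.fract (ss θ s A B))) ≤
      (A.roots.map fun a => 1 / 2 * Real.log ‖4 * f.eval a‖ -
        1 / (M : ℝ) * Real.log ‖2 * U.eval a‖).sum

/-! ## Ideals and divisor classes -/

/-- INV (the same statement as MIC of StmtsU).  `B² - f = - A A'`.  The product is generated by `A²`, `A (y + B)`, `(y - B) A`,
`(y - B)(y + B) = f - B² = A A'`, all in `(A)`.  It contains `A²`, `A A'`,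
`A (y + B) - (y - B) A = 2 A B`, and `gcd (A, B, A') = 1`: a common prime factor `p` has
`p² ∣ B² + A A' = f`, against `Squarefree f`; so it contains `A`. -/
def InvStmt : Prop :=
  ∀ (K : Type) [Field K] (f A B : K[X]), (2 : K) ≠ 0 → Squarefree f → Mum f A B →
    MI f A B * MI f A (-B) = Ideal.span {(⟨A, 0⟩ : Q K f)}

/-- NRM.  The ring automorphism `⟨p, q⟩ ↦ ⟨p, -q⟩` maps `MI f A B` to `MI f A (-B)` and `ψ` to its
conjugate, so (INV) `(ψ ψ̄) = ∏ MI (A i) (B i) MI (A i) (-B i) = (∏ A i)` as ideals, where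
`ψ ψ̄ = ψ.re² - f ψ.im² ∈ K[X]`.  Divisibility in `Q K f` of elements of `K[X]` is divisibility in
`K[X]` (compare the first component), so the two polynomials are associated in `K[X]`:
`κ ∈ K`, `κ ≠ 0`.  `ψ ≠ 0` because `∏ A i ≠ 0`. -/
def NrmStmt : Prop :=
  ∀ (K : Type) [Field K] (f : K[X]) (A B : Fin 3 → K[X]) (ψ : Q K f), (2 : K) ≠ 0 →
    Odd f.natDegree → Squarefree f → (∀ i, Mum f (A i) (B i)) →
    MI f (A 0) (B 0) * MI f (A 1) (B 1) * MI f (A 2) (B 2) = Ideal.span {ψ} →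
    ∃ κ : K, κ ≠ 0 ∧ ψ.re ^ 2 - f * ψ.im ^ 2 = C κ * (A 0 * A 1 * A 2)

/-- REP (reduced representatives; the same statement as RRP of StmtsU).  `H58Q.exists_reduced` (Helper58_UB/Colen; `Q K f` is a Dedekind
domain by the proof of `UBT.DedStmt`) gives an ideal `J` in the class of `I` with `colen J ≤ 2`
(`ClassGroup.mk0_eq_mk0_iff`), `H31M.exists_herm` (Helper31_Mean/ClassNum) its Hermite data `w, c, b`,
`deg w ≤ 2`.  Multiplication by `y` shows `c ∣ w` (`y w ∈ J`) and `c ∣ b`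
(`y (b + c y) = f c + b y ∈ J`), so `J = (c) (w/c, y + b/c)`, `A = w/c` normalized,
`B = (-b/c) mod A` (`(A, y - B)` depends on `B` modulo `A` only); `A ∣ B² - f` since
`(y - B)(y + B) = f - B²` is in `MI f A B`, and `MI f A B ∩ K[X] = (A)`. -/
def RepStmt : Prop :=
  ∀ (K : Type) [Field K] (f : K[X]), (2 : K) ≠ 0 → f.Monic → f.natDegree = 5 → Squarefree f →
    ∀ I : Ideal (Q K f), I ≠ ⊥ →
      ∃ A B : K[X], Mum f A B ∧ A.natDegree ≤ 2 ∧ SameCl (MI f A B) I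

/-- IMU.  `Submodule.mul_induction_on`: products: `evq` is multiplicative at points of the curve
(CHT), sums: the larger constant, the smaller `δ` (restrict to `δ ≤ ‖X₁‖ - ‖eta θ‖` and so on, so
that `X` stays in the annulus).  The last part: an element of `Q K f` is bounded near `X₁` (polynomials
in `x(X)`, `‖x(X)‖ ≤ 1`, `‖y(X)‖ ≤ 1`). -/
def ImuStmt : Prop :=
  ∀ (K L : Type) [Field K] [NormedField L] [IsUltrametricDist L] [CompleteSpace L] (φ : K →+* L)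
    (f : K[X]) (θ : Fin 5 → L) (s : ℕ → L) (X₁ : L), Node (f.map φ) θ → Sq (hh θ) s →
    Ann ‖eta θ‖ X₁ →
    (∀ (I J : Ideal (Q K f)) (m n : ℕ), IGr φ θ s I X₁ m → IGr φ θ s J X₁ n →
      IGr φ θ s (I * J) X₁ (m + n)) ∧ ∀ I : Ideal (Q K f), IGr φ θ s I X₁ 0

open scoped Classical in
/-- IMI.  `a = xx θ X₁`, `m = count a`.  An element of `MI f A B` is `p A + q (y - B)`, `p`, `q` bounded
near `X₁` (as in IMU), so only `A` and `y - B` matter.  `‖A(xx X)‖ ≤ C ‖xx X - a‖^m ≤ C' ‖X - X₁‖^m`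
(CHT, last part).  If `yy X₁ ≠ 0`: `(y - B)(y + B) = f - B² = A A'` and `y + B` tends to
`2 yy X₁ ≠ 0`, so `‖y - B‖ ≤ C ‖A‖` near `X₁`.  If `yy X₁ = 0` then `f(a) = 0 = B(a)`, and
`m ≤ 1`: otherwise `(x - a)² ∣ A ∣ f - B²` and `(x - a)² ∣ B²` give `(x - a)² ∣ f`, but the roots `θ i`
are different; for `m ≤ 1` use that `y(X) - B(x(X))` vanishes at `X₁` and is Lipschitz there
(`yy` by EXL and LIP: `s(z) (X - η/X)/2` is a Laurent series with `Bdd`). -/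
def ImiStmt : Prop :=
  ∀ (K L : Type) [Field K] [NormedField L] [IsUltrametricDist L] [CompleteSpace L] (φ : K →+* L)
    (f A B : K[X]) (θ : Fin 5 → L) (s : ℕ → L) (X₁ : L), Node (f.map φ) θ → Sq (hh θ) s →
    Ann ‖eta θ‖ X₁ → Mum f A B → (B.map φ).eval (xx θ X₁) = yy θ s X₁ →
    IGr φ θ s (MI f A B) X₁ ((A.map φ).roots.count (xx θ X₁))

/-- ADD (the sum of the positions over the divisor of `ψ` is an integer).  Over `L` write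
`α = ψ.re.map φ`, `β = ψ.im.map φ`, `𝒜 = ∏ (A i).map φ`, `α² - f β² = C (φ κ) 𝒜`.  GAU gives `γ`;
`F(X) = γ⁻¹ (α(x(X)) + β(x(X)) y(X)) = val c X`, `Bdd r 1 c` (EXL, PMU as in NIN), `r = ‖eta θ‖`.
`Z = ∑_i nz (A i) (B i)`.  For `x ∈ Z`: `count x (nz (A i) (B i)) = count (xx x) (A i).roots` if
`B i (xx x) = yy x` and `0` otherwise (CHT), so IMI, IMU give
`IGr (∏ MI) x (count x Z)`, in particular `Grow (val c) x (count x Z)`.  Norm relation: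
`F(X) F(η/X) = γ⁻² φ(κ) ∏_{a ∈ 𝒜.roots} (xx X - a)`; for `‖a - e‖ ≥ 1` one has
`‖xx X - a‖ = max 1 ‖a‖` (`‖xx X - e‖ < 1`, `‖e‖ ≤ 1`), for `‖a - e‖ < 1` one has `max 1 ‖a‖ = 1` and
`‖xx X - a‖ = ‖(X - x)(1 - η/(X x))‖`, `x = crd a (B a)` (CHT); with
`‖γ‖² = ‖φ κ‖ ∏ max 1 ‖a‖` this is the hypothesis of SLO. -/
def AddStmt : Prop :=
  ∀ (K L : Type) [Field K] [NormedField L] [IsUltrametricDist L] [CompleteSpace L] (φ : K →+* L)
    (f : K[X]) (θ : Fin 5 → L) (s : ℕ → L) (A B : Fin 3 → K[X]) (ψ : Q K f) (κ : K),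
    Node (f.map φ) θ → Sq (hh θ) s → (∀ i, Mum f (A i) (B i)) →
    (∀ i, ((A i).map φ).Splits) →
    MI f (A 0) (B 0) * MI f (A 1) (B 1) * MI f (A 2) (B 2) = Ideal.span {ψ} → κ ≠ 0 →
    ψ.re ^ 2 - f * ψ.im ^ 2 = C κ * (A 0 * A 1 * A 2) →
    ∃ k : ℤ, ∑ i : Fin 3, ss θ s ((A i).map φ) ((B i).map φ) = k

/-- KAP.  `ss (A, -B) = card (nz A B) - ss (A, B)` (CHT: `crd a (-y) = η / crd a y`,
`pos (η/X) = 1 - pos X`; `B(a)² = f(a)` for the roots `a` of `A`).  `MI f 1 0 = ⊤`,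
`ss (1, 0) = 0`.  (i) If `MI f A B = (ψ)`, ADD (with NRM) for `(A, B), (1, 0), (1, 0)` gives
`ss (A, B) ∈ ℤ`.  (ii) If `SameCl (MI A B) (I J)`, `SameCl (MI A' B') I`, `SameCl (MI A₁ B₁) J`,
`I, J ≠ ⊥`, then `T = MI A' B' * MI A₁ B₁ * MI A (-B)` is principal: by INV
`(a₁) T = (a₂) (A)` with `a₁, a₂ ≠ 0`, so `a₂ A = a₁ ψ` with `ψ ∈ T` and `T = (ψ)` (`Q K f` is a
domain, `H58Q.isDomain`); hence `ss (A, B) - ss (A', B') - ss (A₁, B₁) ∈ ℤ`.  Fix a reduced pair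
`(A₁, B₁)` for `I` (REP), `s₁ = ss (A₁, B₁)`; induction on `k`: a pair `(A', B')` for `I^k` (REP) and
(ii) with `J = I`; `k = 0` is (i).  Second part: a pair for `I^N`: `ss = N s₁ + j` and `ss ∈ ℤ` by (i)
(`SameCl` to a principal ideal makes `MI f A B` principal).  Third part: `k = 1` of the first. -/
def KapStmt : Prop :=
  ∀ (K L : Type) [Field K] [NormedField L] [IsUltrametricDist L] [CompleteSpace L] (φ : K →+* L)
    (f : K[X]) (θ : Fin 5 → L) (s : ℕ → L), (2 : K) ≠ 0 → Squarefree f → f.natDegree = 5 →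
    Node (f.map φ) θ → Sq (hh θ) s → (∀ p : K[X], (p.map φ).Splits) →
    ∀ I : Ideal (Q K f), I ≠ ⊥ → ∃ (s₁ : ℝ) (A₁ B₁ : K[X]),
      Mum f A₁ B₁ ∧ A₁.natDegree ≤ 2 ∧ s₁ = ss θ s (A₁.map φ) (B₁.map φ) ∧
      (∀ (k : ℕ) (A B : K[X]), Mum f A B → SameCl (MI f A B) (I ^ k) →
        ∃ j : ℤ, ss θ s (A.map φ) (B.map φ) = k * s₁ + j) ∧
      ∀ N : ℕ, (I ^ N).IsPrincipal → ∃ j : ℤ, N * s₁ = j

/-! ## Integrality of the positions -/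

/-- LIM.  `Cl φ` is closed under the field operations of `L` (limits).  If `z₁ = 0` clear.  Otherwise
`q = z₁ z₂ ≠ 0` and `T(x) = φ q / (φ p - x)` maps `{‖x‖ ≤ ‖z₁‖}` to itself
(`‖φ p - x‖ = ‖z₂‖`), `T(z₁) = z₁`, `‖T(x) - z₁‖ = (‖z₁‖/‖z₂‖) ‖x - z₁‖`; iterate from `x = 0`:
all iterates are in `φ(K)`.  `z₂ = φ p - z₁`. -/
def LimStmt : Prop :=
  ∀ (K L : Type) [Field K] [NormedField L] [IsUltrametricDist L] (φ : K →+* L) (p q : K)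
    (z₁ z₂ : L), z₁ + z₂ = φ p → z₁ * z₂ = φ q → ‖z₁‖ < ‖z₂‖ → Cl φ z₁ ∧ Cl φ z₂

/-- RAT (the centre is rational modulo `η`).  Newton's method for `f'` in `K`:
`u ↦ u - f'(u)/f''(u)`.  Over `L` write `u = e + δ`, `‖δ‖ < 1`, `H = hh θ`,
`f(e + z) = (z² - η) H(z)`: `f'(u) = 2 δ H + (δ² - η) H'`,
`f''(u) = 2 H + 4 δ H' + (δ² - η) H''` of norm `1`, and the new
`δ' = (4 δ² H' - (δ² - η) H' + δ (δ² - η) H'') / f''(u)` has norm `≤ max (‖δ‖²) ‖η‖`.  Iterate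
until `‖δ‖ ≤ ‖η‖`. -/
def RatStmt : Prop :=
  ∀ (K L : Type) [Field K] [NormedField L] [IsUltrametricDist L] (φ : K →+* L) (f : K[X])
    (θ : Fin 5 → L) (e₀ : K), Node (f.map φ) θ → ‖φ e₀ - ctr θ‖ < 1 →
    ∃ e' : K, ‖φ e' - ctr θ‖ ≤ ‖eta θ‖

/-- NSZ (`n ss ∈ ℤ`).  `r = ‖η‖ = c^n`, `e = ctr θ`, value set of `K`: `V = c^ℤ ∪ {0}`; `x ∈ V` also
for `‖x‖`, `x ∈ Cl φ`.  For a root `a` of `A.map φ` with `‖a - e‖ < 1` put `z = a - e`,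
`z'' = a - φ e'` (`‖z - z''‖ ≤ r`), `y = B(a)`, `x = crd a y`, `t = pos x ∈ (0,1)`.  CHT:
`z = (x + η/x)/2`, `‖y‖ = ‖x - η/x‖`.  If `t ≠ 1/2` then `‖z‖ = r^(min (t, 1-t)) > r^(1/2)` and
`‖z''‖ = ‖z‖`.  If `t = 1/2` then `‖z‖, ‖y‖ ≤ r^(1/2)` with equality for one of them
(`x = z + y/s(z)`).
(1) If `z'' ∈ Cl φ` then `n t ∈ ℤ`: for `t ≠ 1/2`, `‖z''‖ = c^(n min(t,1-t)) ∈ V`; for `t = 1/2`,
`‖z‖ = r^(1/2)` gives `‖z''‖ = r^(1/2)`, and `y = B(a) ∈ Cl φ`: so `c^(n/2) ∈ V`, `n` even.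
(2) No root in the disc: `ss = 0`.  One root in the disc: `deg A = 1`, `a ∈ φ(K)`; or `deg A = 2`,
the other root has `‖a₂ - φ e'‖ ≥ 1 > ‖z''‖`, LIM.  Two roots in the disc: if `‖z₁''‖ ≠ ‖z₂''‖` LIM
and (1).  If `‖z₁''‖ = ‖z₂''‖ = ρ` then `ρ² = ‖φ q‖ ∈ V`, `q = A(e')`.  `ρ ≤ r^(1/2)`: `t₁ = t₂ = 1/2`
and `ss = 1`.  `ρ > r^(1/2)`: `ρ = c^(k/2)`, `min (t_i, 1 - t_i) = k/(2n)` for both,
`n ss ∈ {k, n, 2n - k}`. -/
def NszStmt : Prop :=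
  ∀ (K L : Type) [Field K] [NormedField L] [IsUltrametricDist L] [CompleteSpace L] (φ : K →+* L)
    (f A B : K[X]) (θ : Fin 5 → L) (s : ℕ → L) (c : ℝ) (n : ℕ) (e' : K), 0 < c → c < 1 →
    (∀ x : K, x ≠ 0 → ∃ k : ℤ, ‖φ x‖ = c ^ k) → Node (f.map φ) θ → Sq (hh θ) s →
    ‖eta θ‖ = c ^ n → ‖φ e' - ctr θ‖ ≤ ‖eta θ‖ → Mum f A B → A.natDegree ≤ 2 →
    (A.map φ).Splits → ∃ j : ℤ, n * ss θ s (A.map φ) (B.map φ) = j

/-! ## From the place to `L` -/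

/-- CPL.  `K̂ = v.Completion` (complete, ultrametric, nontrivially normed), `Ω` its algebraic closure
with the spectral norm (`spectralNorm.normedField`), `L` the completion of `Ω`
(`UniformSpace.Completion`, a normed field; ultrametric since `Ω` is dense and ultrametric). -/
def CplStmt : Prop :=
  ∀ (K : Type) [Field K] (v : AbsoluteValue K ℝ), IsNonarchimedean v → (∃ x, x ≠ 0 ∧ v x ≠ 1) →
    ∃ (Ω L : Type) (_ : Field Ω) (_ : IsAlgClosed Ω) (_ : NormedField L)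
      (_ : IsUltrametricDist L) (_ : CompleteSpace L) (i : K →+* Ω) (j : Ω →+* L),
      ∀ x : K, ‖j (i x)‖ = v x

/-- ROO (from the condition modulo `v` to the roots).  `f` monic and integral: all roots are integral.
`h = ∏ (x - β_k)`, `k = 1, 2, 3`, over `Ω`: integral, `∏_{k ≠ l} (β_k - β_l) = ± Res(h, h')`
`= ± discr h` (`resultant_deriv`, `resultant_eq_prod_eval`) is a unit, so `‖β_k - β_l‖ = 1`, and `∏ (e - β_k)` unit: `‖e - β_k‖ = 1`.  `f ≡ (x - e)² h`: `‖f(β_k)‖ < 1`, so some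
root of `f` is congruent to `β_k`; `‖f(e)‖ < 1` and `‖f'(e)‖ < 1`, so at least two roots (with
multiplicity) are congruent to `e` (if exactly one, `‖f'(e)‖ = 1`).  Five roots in total: exactly two
are congruent to `e` and one to each `β_k`.  Number them; `θ 0 ≠ θ 1` because `f` is squarefree
(`Res(f, f') ≠ 0`). -/
def RooStmt : Prop :=
  ∀ (K Ω L : Type) [Field K] [Field Ω] [IsAlgClosed Ω] [NormedField L] [IsUltrametricDist L]
    (i : K →+* Ω) (j : Ω →+* L) (v : AbsoluteValue K ℝ) (f : K[X]),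
    (∀ x : K, ‖j (i x)‖ = v x) → f.Monic → f.natDegree = 5 → discr f ≠ 0 → NodeShape v f →
    ∃ (θ : Fin 5 → Ω) (e₀ : K), Node (f.map (j.comp i)) (fun k => j (θ k)) ∧
      ‖j (i e₀) - ctr (fun k => j (θ k))‖ < 1

/-- RVL.  `resultant_map_map`, `resultant_eq_prod_eval`. -/
def RvlStmt : Prop :=
  ∀ (K L : Type) [Field K] [NormedField L] (φ : K →+* L) (v : AbsoluteValue K ℝ) (A g : K[X]),
    (∀ x : K, ‖φ x‖ = v x) → A.Monic → (A.map φ).Splits →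
    v (resultant A g) = ((A.map φ).roots.map fun a => ‖(g.map φ).eval a‖).prod

/-- BOU (OUTPUT OF BLOCK B).  `v` is not trivial: otherwise `NodeShape` gives `f = (x - e)² h`, against
`Squarefree f`.  `discr f ≠ 0` (its value is `c^n`).  CPL gives `Ω, L, i, j`, `φ = j ∘ i`; ROO the roots
and `e₀`; `s₀ = j` of a square root in `Ω` of `∏_{k ≥ 2} (e - θ k)` and SQR give `s` with
`Sq (hh θ) s`; NOD (f) and `resultant_deriv`: `‖eta θ‖ = c^n`.  KAP gives `s₁`, `N s₁ ∈ ℤ`; RAT and NSZ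
for `(A₁, B₁)` give `n s₁ ∈ ℤ`.  For a pair `(A, B)` in the class of `I^k`: EIN, where `U(a) ≠ 0` for
the roots `a` of `A` by `Res(A, U) ≠ 0` (RVL), `B(a)² = f(a)` from `A ∣ B² - f`,
`U(a) + B(a) W(a) = 0` from `A ∣ U + B W`; `fract (ss) = fract (k s₁)` by KAP; RVL for `4 f` and
`2 U` and the logarithm of a product identify the right side of EIN with `Lv`. -/
def BouStmt : Prop :=
  ∀ (K : Type) [Field K] (v : AbsoluteValue K ℝ) (c : ℝ) (n : ℕ) (f : K[X]),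
    IsNonarchimedean v → 0 < c → c < 1 → (∀ x : K, x ≠ 0 → ∃ k : ℤ, v x = c ^ k) → f.Monic →
    f.natDegree = 5 → Squarefree f → NodeShape v f → v (discr f) = c ^ n →
    ∀ I : Ideal (Q K f), I ≠ ⊥ → ∃ s₁ : ℝ,
      (∀ N : ℕ, (I ^ N).IsPrincipal → ∃ j : ℤ, N * s₁ = j) ∧ (∃ j : ℤ, n * s₁ = j) ∧
      ∀ (k : ℕ) (A B U W : K[X]) (M : ℕ), Mum f A B → A.natDegree ≤ 2 →
        SameCl (MI f A B) (I ^ k) → 0 < M → Even M → U ^ 2 - f * W ^ 2 = A ^ M →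
        A ∣ U + B * W → resultant A U ≠ 0 →
        Real.log (v (discr f)) * (Int.fract (k * s₁) * (1 - Int.fract (k * s₁))) ≤
          Lv v f A U M

end Pool.Agent.SZT.B
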