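import Mathlib
import Pool.Agent.Helper27_UBT.Stmts

set_option autoImplicit false

/-!
# SZT (MP_160b6c_nt): torsion of genus 2 Jacobians and the Szpiro ratio. Definitions and interface.

`f` is a monic squarefree quintic over `K`, `R = Q K f = K[x,y]/(y^2 - f)` (`H58Q.Q`), `J(K)` is the
class group of `R` (`UBT.OddCurve.Jac`). An element of `R` is `⟨U, W⟩ = U + y W`.
-/

namespace Pool.Agent.SZT

open Polynomial NumberField H58Q

/-- The ideal `(A, y - B)` of `K[x,y]/(y^2 - f)`. -/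
noncomputable def MI {K : Type} [Field K] (f A B : K[X]) : Ideal (Q K f) :=
  Ideal.span {(⟨A, 0⟩ : Q K f), ⟨-B, 1⟩}

/-- Mumford data: `A` monic, `deg B < deg A`, `A` divides `B^2 - f`. (`A = 1`, `B = 0`: the unit
ideal.) -/
structure Mum {K : Type} [Field K] (f A B : K[X]) : Prop where
  monic : A.Monic
  deg : B.degree < A.degree
  dvd : A ∣ B ^ 2 - f

/-- Good data (genus 2): degree 2, no Weierstrass point. -/
structure Good {K : Type} [Field K] (f A B : K[X]) : Prop extends Mum f A B where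
  two : A.natDegree = 2
  cop : IsCoprime A f

/-- Two ideals of a domain are in the same class. -/
def SameCl {R : Type} [CommRing R] (I J : Ideal R) : Prop :=
  ∃ a b : R, a ≠ 0 ∧ b ≠ 0 ∧ Ideal.span {a} * I = Ideal.span {b} * J

/-- `L_v = (1/2) log |Res(A, 4 f)| - (1/M) log |Res(A, 2 U)|`. -/
noncomputable def Lv {K : Type} [Field K] (v : K → ℝ) (f A U : K[X]) (M : ℕ) : ℝ :=
  (1 / 2) * Real.log (v (resultant A (4 * f))) - (1 / M) * Real.log (v (resultant A (2 * U)))

/-- the largest root difference. -/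
noncomputable def rho {L : Type} (v : L → ℝ) [Field L] (θ : Fin 5 → L) : ℝ :=
  ⨆ p : Fin 5 × Fin 5, v (θ p.1 - θ p.2)

/-- the discriminant in terms of the roots: the product over `i < j` of `(θ i - θ j)^2`. -/
noncomputable def dsc {L : Type} [Field L] (θ : Fin 5 → L) : L :=
  ∏ i : Fin 5, ∏ j ∈ Finset.univ.filter (fun j => i < j), (θ i - θ j) ^ 2

/-- `f` is `v`-integral and reduces modulo the finite place `v` (`v` not over 2) to `(x - e)^2 h(x)`
with `h` separable modulo `v` and `h(e)` not 0 modulo `v`: the curve `y^2 = f(x)` has one simple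
node modulo `v` (or good reduction is excluded by `v (disc f) < 1`, see `IsNode`). -/
def NodeShape {K : Type} [Field K] (v : AbsoluteValue K ℝ) (f : K[X]) : Prop :=
  v 2 = 1 ∧ (∀ n, v (f.coeff n) ≤ 1) ∧ ∃ (e : K) (h : K[X]), v e ≤ 1 ∧ (∀ n, v (h.coeff n) ≤ 1) ∧
    h.Monic ∧ h.natDegree = 3 ∧
    (∀ n, v ((f - (X - C e) ^ 2 * h).coeff n) < 1) ∧ v (h.eval e) = 1 ∧ v (discr h) = 1

/-- **A-OUT** (output of block A: the one-place bound, note 3625 (A')). `f = prod (X - θ i)` split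
over `L`, `U^2 - f W^2 = A^M`, `A` monic, split, of degree 2, prime to `U` (hence to `f`: at a root of
`A` we have `U^2 = f W^2`). It says `L_v >= 3 log rho - delta/2 - C`, because
`delta = 20 log rho - log |dsc|`; `C = - c2 log |2|` in the nonarchimedean case. Second part: `ℂ`. -/
def AOutStatement : Prop :=
  ∃ c2 ci : ℝ, 0 ≤ c2 ∧ 0 ≤ ci ∧
    (∀ (L : Type) [Field L] (v : AbsoluteValue L ℝ) (θ : Fin 5 → L)
      (A U W : L[X]) (M : ℕ), IsNonarchimedean v → (2 : L) ≠ 0 → Function.Injective θ → A.Monic →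
      A.natDegree = 2 → A.Splits → U.Splits → IsCoprime A U → 0 < M → Even M →
      U ^ 2 - (∏ i, (X - C (θ i))) * W ^ 2 = A ^ M →
      (1 / 2) * Real.log (v (dsc θ)) - 7 * Real.log (rho v θ) + c2 * Real.log (v 2)
        ≤ Lv v (∏ i, (X - C (θ i))) A U M) ∧
    (∀ (θ : Fin 5 → ℂ) (A U W : ℂ[X]) (M : ℕ), Function.Injective θ → A.Monic →
      A.natDegree = 2 → IsCoprime A U → 0 < M → Even M →
      U ^ 2 - (∏ i, (X - C (θ i))) * W ^ 2 = A ^ M →
      (1 / 2) * Real.log ‖dsc θ‖ - 7 * Real.log (rho (fun z : ℂ => ‖z‖) θ) - ci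
        ≤ Lv (fun z : ℂ => ‖z‖) (∏ i, (X - C (θ i))) A U M)

/-- **B-OUT** (output of block B: simple nodes, note 3625 (B)). `n = ord_v (disc f)`; `s` is the
component of the class of `MI f A₁ B₁` (a homomorphism to `(1/n) Z / Z`); `I^N` principal. -/
def BOutStatement : Prop :=
  ∀ (K : Type) [Field K] [NumberField K] (v : FinitePlace K) (f : K[X]) (n : ℕ),
    f.Monic → f.natDegree = 5 → Squarefree f → NodeShape v.val f → 0 < n →
    v (discr f) * (Ideal.absNorm v.maximalIdeal.asIdeal : ℝ) ^ n = 1 →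
    ∀ (A₁ B₁ : K[X]) (N : ℕ), Mum f A₁ B₁ → 0 < N → ((MI f A₁ B₁) ^ N).IsPrincipal →
    ∃ s : ℝ, (∃ m : ℤ, (N : ℝ) * s = m) ∧ (∃ m : ℤ, (n : ℝ) * s = m) ∧
      ∀ (k : ℕ) (A B U W : K[X]) (M : ℕ), Good f A B →
        SameCl (MI f A B) ((MI f A₁ B₁) ^ k) → 0 < M → Even M →
        (MI f A B) ^ M = Ideal.span {(⟨U, W⟩ : Q K f)} → U ^ 2 - f * W ^ 2 = A ^ M →
        Real.log (v (discr f)) * (Int.fract (k * s) * (1 - Int.fract (k * s)))
          ≤ Lv v f A U M

end Pool.Agent.SZT
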