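import Pool.Agent.SZT.Defs

/-!
# SZT, block B (odd simple nodes): definitions

`L` is a complete ultrametric field with `‖2‖ = 1`.  `f = ∏ (x - θ i)` is a quintic with integral roots
which are pairwise incongruent except `θ 0 ≡ θ 1`.  With `e = (θ 0 + θ 1) / 2`,
`η = ((θ 0 - θ 1) / 2)²` one has `f(e + z) = (z² - η) h(z)`, `|h(z)| = 1` for `|z| < 1`.
The points of `y² = f(x)` over the disc `|x - e| < 1` form one annulus `|η| < |X| < 1`:
`x = e + (X + η/X)/2`, `y = √h(z) (X - η/X)/2`, and `(x, y) ↦ (x, -y)` is `X ↦ η/X`.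
-/

noncomputable section

open Polynomial H58Q

namespace Pool.Agent.SZT.B

/-! ### Laurent series on an annulus, power series on the unit disc -/

section analysis

variable {L : Type} [NormedField L]

/-- the open annulus `r < |X| < 1` -/
def Ann (r : ℝ) (X : L) : Prop := r < ‖X‖ ∧ ‖X‖ < 1

/-- the coefficients of a Laurent series which is bounded by `1` at `|X| = 1` and by `μ` at
`|X| = r` -/
def Bdd (r μ : ℝ) (c : ℤ → L) : Prop := (∀ k : ℤ, ‖c k‖ ≤ 1) ∧ ∀ k : ℤ, ‖c k‖ ≤ μ * r ^ (-k)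

/-- the value of a Laurent series -/
def val (c : ℤ → L) (X : L) : L := ∑' k : ℤ, c k * X ^ k

/-- the value of a power series -/
def pval (s : ℕ → L) (z : L) : L := ∑' k : ℕ, s k * z ^ k

/-- the position `t` of `X` in the annulus: `|X| = r^t` -/
def pos (r : ℝ) (X : L) : ℝ := Real.log ‖X‖ / Real.log r

/-- `F(X) = O(|X - X₁|^m)` for `X → X₁`, `X ≠ X₁` -/
def Grow (F : L → L) (X₁ : L) (m : ℕ) : Prop :=
  ∃ C δ : ℝ, 0 < δ ∧ ∀ X : L, X ≠ X₁ → ‖X - X₁‖ < δ → ‖F X‖ ≤ C * ‖X - X₁‖ ^ m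

/-- `s` is an integral power series whose square is `h` on the open unit disc -/
def Sq (h : L[X]) (s : ℕ → L) : Prop :=
  (∀ k, ‖s k‖ ≤ 1) ∧ ∀ z : L, ‖z‖ < 1 → pval s z ^ 2 = h.eval z

/-- all coefficients are integral -/
def PInt (p : L[X]) : Prop := ∀ i, ‖p.coeff i‖ ≤ 1

end analysis

/-! ### the node -/

section node

variable {L : Type} [NormedField L]

/-- `f` has an odd simple node: integral roots, `θ 0 ≡ θ 1`, no other congruence, `θ 0 ≠ θ 1` -/
structure Node (f : L[X]) (θ : Fin 5 → L) : Prop where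
  two : ‖(2 : L)‖ = 1
  fac : f = ∏ i, (X - C (θ i))
  int : ∀ i, ‖θ i‖ ≤ 1
  ne : θ 0 ≠ θ 1
  near : ‖θ 0 - θ 1‖ < 1
  far : ∀ i j, i ≠ j → ¬ (i = 0 ∧ j = 1) → ¬ (i = 1 ∧ j = 0) → ‖θ i - θ j‖ = 1

/-- the centre `e` -/
def ctr (θ : Fin 5 → L) : L := (θ 0 + θ 1) / 2

/-- `η` -/
def eta (θ : Fin 5 → L) : L := ((θ 0 - θ 1) / 2) ^ 2

/-- `h` -/
def hh (θ : Fin 5 → L) : L[X] :=
  (X - C (θ 2 - ctr θ)) * (X - C (θ 3 - ctr θ)) * (X - C (θ 4 - ctr θ))

/-- the function `x` on the annulus -/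
def xx (θ : Fin 5 → L) (X : L) : L := ctr θ + (X + eta θ / X) / 2

/-- the function `y` on the annulus; `s` is the power series `√h` -/
def yy (θ : Fin 5 → L) (s : ℕ → L) (X : L) : L :=
  (X - eta θ / X) / 2 * pval s ((X + eta θ / X) / 2)

/-- the parameter `X` of the point `(a, y)`, `|a - e| < 1` -/
def crd (θ : Fin 5 → L) (s : ℕ → L) (a y : L) : L := (a - ctr θ) + y / pval s (a - ctr θ)

open scoped Classical in
/-- the parameters of the points `(a, B(a))`, `A(a) = 0`, in the annulus (with multiplicities) -/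
def nz (θ : Fin 5 → L) (s : ℕ → L) (A B : L[X]) : Multiset L :=
  (A.roots.filter (fun a => ‖a - ctr θ‖ < 1)).map (fun a => crd θ s a (B.eval a))

/-- the sum of the positions of the points of `(A, B)` in the annulus -/
def ss (θ : Fin 5 → L) (s : ℕ → L) (A B : L[X]) : ℝ := ((nz θ s A B).map (pos ‖eta θ‖)).sum

end node

/-! ### ideals of the coordinate ring -/

section ideals

variable {K : Type} [Field K]

variable {L : Type} [NormedField L]

/-- the value of `u ∈ K[x, y] / (y² - f)` at the point `(x₀, y₀)` with coordinates in `L` -/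
def evq (φ : K →+* L) {f : K[X]} (u : Q K f) (x₀ y₀ : L) : L :=
  u.re.eval₂ φ x₀ + u.im.eval₂ φ x₀ * y₀

/-- every element of `I` vanishes to order `≥ m` at the point `X₁` of the annulus -/
def IGr (φ : K →+* L) (θ : Fin 5 → L) (s : ℕ → L) {f : K[X]} (I : Ideal (Q K f)) (X₁ : L)
    (m : ℕ) : Prop :=
  ∀ u ∈ I, Grow (fun X => evq φ u (xx θ X) (yy θ s X)) X₁ m

/-- `x ∈ L` is a limit of elements of `φ(K)` -/
def Cl (φ : K →+* L) (x : L) : Prop := ∀ ε : ℝ, 0 < ε → ∃ κ : K, ‖x - φ κ‖ < ε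

end ideals

end Pool.Agent.SZT.B
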